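import Pool.Agent.H.MP_82e23a_gt.Sym

set_option autoImplicit false

/-! Arithmetic of positions. -/

namespace Pool.Agent.H.MP_82e23a_gt

variable {n : ℕ → ℕ}

/-- the length of leg `X` at level `l + 1` -/
def An (n : ℕ → ℕ) (l : ℕ) : ℤ := ((n l : ℤ) + 1) * Ln n l

theorem An_facts (n : ℕ → ℕ) (l : ℕ) :
    Ln n l ≤ An n l ∧ An n l % 2 = 0 ∧ Ln n (l + 1) = 2 * An n l + 4 * Ln n l := by
  have h1 := Ln_pos n l
  have h2 := Ln_even n l
  have h0 : (0 : ℤ) ≤ n l := Int.natCast_nonneg _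
  refine ⟨?_, ?_, ?_⟩
  · unfold An; nlinarith
  · unfold An
    obtain ⟨k, hk⟩ := Int.dvd_of_emod_eq_zero h2
    rw [hk, mul_left_comm]; exact Int.mul_emod_right _ _
  · simp only [Ln, An]; ring

theorem qj_facts (L : ℤ) (m j : ℕ) (hL : 2 ≤ L) (hLe : L % 2 = 0) (hj : j < m + 3) :
    (j = 0 → qj j * L = 0) ∧ (j = 1 → qj j * L = -L) ∧
    (2 ≤ j → 0 ≤ qj j * L ∧ qj j * L ≤ ((m : ℤ) + 1) * L - L) ∧ (qj j * L) % 2 = 0 := by
  refine ⟨?_, ?_, ?_, ?_⟩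
  · rintro rfl; simp [qj]
  · rintro rfl; simp [qj]
  · intro h2
    have e : qj j = (j : ℤ) - 2 := by simp [qj]; omega
    rw [e]
    have h3 : (2 : ℤ) ≤ j := by exact_mod_cast h2
    have h4 : (j : ℤ) ≤ m + 2 := by exact_mod_cast (by omega : j ≤ m + 2)
    constructor <;> nlinarith
  · obtain ⟨k, hk⟩ := Int.dvd_of_emod_eq_zero hLe
    rw [hk, mul_left_comm]; exact Int.mul_emod_right _ _

/-- value of a bit -/
def bv (b : Bool) : ℤ := if b then 1 else 0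

@[simp] theorem bv_true : bv true = 1 := rfl
@[simp] theorem bv_false : bv false = 0 := rfl

theorem nextTh_bd (L A t w : ℤ) (j : ℕ) (b b' : Bool) (hw : qj j * L = w)
    (hL : 2 ≤ L) (hLe : L % 2 = 0) (hA : L ≤ A) (hAe : A % 2 = 0)
    (h0 : j = 0 → w = 0) (h1 : j = 1 → w = -L) (h2 : 2 ≤ j → 0 ≤ w ∧ w ≤ A - L)
    (hwe : w % 2 = 0) (ht : 0 ≤ t ∧ t < L ∧ t % 2 = bv b) :
    0 ≤ nextTh L A t j b b' ∧ nextTh L A t j b b' < 2 * A + 4 * L ∧
      nextTh L A t j b b' % 2 = bv b' := by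
  unfold nextTh Pp
  rw [hw]
  have hj : j = 0 ∨ j = 1 ∨ 2 ≤ j := by omega
  cases b <;> cases b' <;> simp only [bv_true, bv_false] at * <;>
    rcases hj with hj | hj | hj <;>
    (first | have := h0 hj | skip) <;> (first | have := h1 hj | skip) <;>
    (first | have := h2 hj | skip) <;>
    split_ifs <;> (try simp at *) <;> (try omega)

theorem th_bd (c : Code n) (l : ℕ) :
    0 ≤ th c l ∧ th c l < Ln n l ∧ th c l % 2 = bv (c.1 l) := by
  induction l with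
  | zero => cases h : c.1 0 <;> simp [th, h, Ln]
  | succ l ih =>
    obtain ⟨a1, a2, a3⟩ := An_facts n l
    obtain ⟨q0, q1, q2, q3⟩ := qj_facts (Ln n l) (n l) (c.2 l) (Ln_pos n l) (Ln_even n l) (c.2 l).2
    rw [a3]
    exact nextTh_bd (Ln n l) (An n l) (th c l) (qj (c.2 l) * Ln n l) (c.2 l) (c.1 l) (c.1 (l + 1)) rfl
      (Ln_pos n l) (Ln_even n l) a1 a2 q0 q1 q2 q3 ih

end Pool.Agent.H.MP_82e23a_gt
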