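import Pool.Agent.H.MP_82e23a_gt.Geo

set_option autoImplicit false

/-! The continuum is connected and chainable. -/

namespace Pool.Agent.H.MP_82e23a_gt

open Set

variable {n : ℕ → ℕ}

theorem P_par (c : Code n) (l : ℕ) : P c l % 2 = bv (c.1 l) := by
  have h1 := (th_bd c l).2.2
  have h2 := (qf c l).he
  unfold P Pp
  omega

theorem pre_u' {c c' : Code n} {m : ℕ} (h : Pre (m + 1) c c') : Pre m (u c) (u c') := by
  have ha := act_pre_eq h
  refine ⟨fun i hi => ?_, fun i hi => ?_⟩
  · rw [u_bit, u_bit, ha i (by omega), h.1 i (by omega), h.2 i (by omega), h.1 (i + 1) (by omega)]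
  · apply Fin.ext
    rw [u_lane, u_lane, ha i (by omega), h.1 i (by omega), h.2 i (by omega),
      h.1 (i + 1) (by omega)]

theorem Pre.mono {c c' : Code n} {l m : ℕ} (h : Pre m c c') (hl : l ≤ m) : Pre l c c' :=
  ⟨fun i hi => h.1 i (by omega), fun i hi => h.2 i (by omega)⟩

theorem pre_v {c c' : Code n} {m : ℕ} (h : Pre m c c') : Pre m (v c) (v c') :=
  ⟨fun i hi => by rw [v_bit, v_bit, h.1 i hi], fun i hi => by rw [v_lane, v_lane, h.2 i hi]⟩

/-- sign -/
def sg (b : Bool) : ℝ := if b then 1 else -1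

open Classical in
/-- turning indicator -/
noncomputable def tau (c : Code n) (l : ℕ) : ℝ := if P (u c) l = P c l then 0 else 1

/-- the function whose fibres are small -/
noncomputable def F (l : ℕ) (c : Code n) (s : ℝ) : ℝ :=
  3 * (P c l : ℝ) + sg (c.1 l) * ((tau c l * s + (1 - tau c l) * min s 1) - 1 / 2)

theorem cont_F (l : ℕ) : Continuous fun p : Code n × ℝ => F l p.1 p.2 := by
  have h1 : Continuous fun c : Code n => (P c l : ℝ) :=
    cont_of_pre _ (l + 1) (fun c c' h => by rw [P_of_pre c c' l h])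
  have h2 : Continuous fun c : Code n => sg (c.1 l) :=
    cont_of_pre _ l (fun c c' h => by rw [h.1 l le_rfl])
  have h3 : Continuous fun c : Code n => tau c l :=
    cont_of_pre _ (l + 2) (fun c c' h => by
      unfold tau
      rw [P_of_pre c c' l (h.mono (by omega)), P_of_pre (u c) (u c') l (pre_u' h)])
  have h1' := h1.comp (continuous_fst : Continuous fun p : Code n × ℝ => p.1)
  have h2' := h2.comp (continuous_fst : Continuous fun p : Code n × ℝ => p.1)
  have h3' := h3.comp (continuous_fst : Continuous fun p : Code n × ℝ => p.1)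
  simp only [Function.comp_def] at h1' h2' h3'
  unfold F
  fun_prop

theorem tau_cases (c : Code n) (l : ℕ) : (tau c l = 0 ∧ P (u c) l = P c l) ∨
    (tau c l = 1 ∧ P (u c) l ≠ P c l) := by
  unfold tau
  split_ifs with h
  · left; exact ⟨rfl, h⟩
  · right; exact ⟨rfl, h⟩

theorem P_u_real (c : Code n) (l : ℕ) (h : P (u c) l ≠ P c l) :
    (P (u c) l : ℝ) = P c l + sg (c.1 l) := by
  rcases P_u c l with h1 | h1
  · exact absurd h1 h
  · rw [h1]; cases c.1 l <;> simp [sg]

theorem P_v_real (c : Code n) (l : ℕ) : (P (v c) l : ℝ) = P c l - sg (c.1 l) := by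
  rw [P_v]; cases c.1 l <;> simp [sg]; ring

theorem bit_of_P {c c' : Code n} {l : ℕ} (h : P c l = P c' l) : c.1 l = c'.1 l := by
  have h1 := P_par c l
  have h2 := P_par c' l
  rw [h, h2] at h1
  cases h3 : c.1 l <;> cases h4 : c'.1 l <;> rw [h3, h4] at h1 <;> simp at h1 ⊢

theorem bit_of_P_ne {c c' : Code n} {l : ℕ} (h : P c' l = P c l + 1 ∨ P c' l = P c l - 1) :
    c'.1 l = !(c.1 l) := by
  have h1 := P_par c l
  have h2 := P_par c' l
  cases h3 : c.1 l <;> cases h4 : c'.1 l <;> rw [h3] at h1 <;> rw [h4] at h2 <;>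
    simp at h1 h2 ⊢ <;> omega

theorem P_u_int (c : Code n) (l : ℕ) (h : P (u c) l ≠ P c l) :
    P (u c) l = P c l + 1 ∨ P (u c) l = P c l - 1 := by
  rcases P_u c l with h1 | h1
  · exact absurd h1 h
  · rw [h1]; cases c.1 l <;> simp; omega

theorem sg_not (b : Bool) : sg (!b) = - sg b := by cases b <;> simp [sg]

theorem F_compat (l : ℕ) {c c' : Code n} {s s' : ℝ} (hs : s ∈ Icc (-1 : ℝ) 2)
    (hs' : s' ∈ Icc (-1 : ℝ) 2) (h : Phi c s = Phi c' s') : F l c s = F l c' s' := by
  rcases Phi_eq hs hs' h with ⟨h1, h2⟩ | ⟨h1, h2, h3⟩ | ⟨h1, h2, h3⟩ | ⟨h1, h2, h3, h4⟩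
  · rw [h1, h2]
  · subst h1 h2 h3
    unfold F
    rcases tau_cases c l with ⟨t1, t2⟩ | ⟨t1, t2⟩
    · rcases tau_cases (u c) l with ⟨t3, t4⟩ | ⟨t3, t4⟩
      · rw [t1, t3, t2, bit_of_P t2]
      · rw [u_u] at t4; exact absurd t2.symm t4
    · rcases tau_cases (u c) l with ⟨t3, t4⟩ | ⟨t3, t4⟩
      · rw [u_u] at t4; exact absurd t4.symm t2
      · rw [t1, t3, P_u_real c l t2, bit_of_P_ne (P_u_int c l t2), sg_not]
        ring
  · subst h1 h2 h3
    have hb : (v c).1 l = !(c.1 l) := rfl
    unfold F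
    rw [P_v_real, hb, sg_not, min_eq_left (by norm_num : (-1 : ℝ) ≤ 1)]
    ring
  · subst h1
    unfold F
    rcases tau_cases c l with ⟨t1, t2⟩ | ⟨t1, t2⟩
    · rw [t1, min_eq_right h3, min_eq_right h4]; ring
    · rw [h2] at t2; exact absurd rfl t2

theorem x_of_P {c c' : Code n} {l : ℕ} (h : P c l = P c' l) : |x c - x c'| ≤ w n l := by
  rw [abs_sub_comm]
  exact x_close c c' l (dig_of_pre (pre_of_th c c' l (P_inj c c' l h).1))

theorem low_close {c c' : Code n} {l : ℕ} {s : ℝ} (h : P c l = P c' l) (hs : -1 ≤ s) (hs1 : s ≤ 1) :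
    |(Phi c s).1 - (Phi c' s).1| ≤ w n l ∧ |(Phi c s).2 - (Phi c' s).2| ≤ w n l := by
  have h1 := x_of_P h
  have hw := w_pos n l
  rcases le_or_gt 0 s with h0 | h0
  · rw [Phi_win c h0 hs1, Phi_win c' h0 hs1]
    simp only [sub_self, abs_zero]
    exact ⟨h1, hw.le⟩
  · have h2 : |x (v c) - x (v c')| ≤ w n l := x_of_P (by rw [P_v, P_v, h, bit_of_P h])
    rw [Phi_down c h0.le, Phi_down c' h0.le]
    have r0 : 0 < -s := by linarith
    have r1 : -s ≤ 1 := by linarith
    generalize -s = r at *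
    constructor
    · simp only
      have e : x c + r * ((x (v c) - x c) / 2) - (x c' + r * ((x (v c') - x c') / 2)) =
        (1 - r / 2) * (x c - x c') + r / 2 * (x (v c) - x (v c')) := by ring
      rw [e]
      rw [abs_le] at h1 h2 ⊢
      constructor <;> nlinarith
    · simp only
      have h3 : |(|x (v c) - x c| - |x (v c') - x c'|)| ≤ 2 * w n l := by
        refine (abs_abs_sub_abs_le_abs_sub _ _).trans ?_
        have e : x (v c) - x c - (x (v c') - x c') = (x (v c) - x (v c')) - (x c - x c') := by ring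
        rw [e]
        exact (abs_sub _ _).trans (by linarith)
      have e : -(r * (|x (v c) - x c| / 2)) - -(r * (|x (v c') - x c'| / 2)) =
        -(r / 2) * (|x (v c) - x c| - |x (v c') - x c'|) := by ring
      rw [e]
      rw [abs_le] at h3 ⊢
      constructor <;> nlinarith

theorem top_close {c : Code n} {l : ℕ} {s : ℝ} (h : P (u c) l = P c l) (hs : 1 ≤ s) (hs1 : s ≤ 2) :
    |(Phi c s).1 - x c| ≤ w n l / 2 ∧ |(Phi c s).2 - 1| ≤ w n l / 2 := by
  have h1 := x_of_P h
  have hw := w_pos n l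
  rw [Phi_up c hs]
  simp only
  constructor
  · have e : x c + (s - 1) * ((x (u c) - x c) / 2) - x c = (s - 1) / 2 * (x (u c) - x c) := by ring
    rw [e]
    rw [abs_le] at h1 ⊢
    constructor <;> nlinarith
  · have e : 1 + (s - 1) * (|x (u c) - x c| / 2) - 1 = (s - 1) / 2 * |x (u c) - x c| := by ring
    rw [e]
    have := abs_nonneg (x (u c) - x c)
    rw [abs_le]
    constructor <;> nlinarith

theorem up_close {c c' : Code n} {l : ℕ} {s : ℝ} (h : P c l = P c' l) (h' : P (u c) l = P (u c') l)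
    (hs : 1 ≤ s) (hs1 : s ≤ 2) :
    |(Phi c s).1 - (Phi c' s).1| ≤ w n l ∧ |(Phi c s).2 - (Phi c' s).2| ≤ w n l := by
  have h1 := x_of_P h
  have h2 := x_of_P h'
  have hw := w_pos n l
  rw [Phi_up c hs, Phi_up c' hs]
  have r0 : 0 ≤ s - 1 := by linarith
  have r1 : s - 1 ≤ 1 := by linarith
  generalize s - 1 = r at *
  constructor
  · simp only
    have e : x c + r * ((x (u c) - x c) / 2) - (x c' + r * ((x (u c') - x c') / 2)) =
      (1 - r / 2) * (x c - x c') + r / 2 * (x (u c) - x (u c')) := by ring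
    rw [e]
    rw [abs_le] at h1 h2 ⊢
    constructor <;> nlinarith
  · simp only
    have h3 : |(|x (u c) - x c| - |x (u c') - x c'|)| ≤ 2 * w n l := by
      refine (abs_abs_sub_abs_le_abs_sub _ _).trans ?_
      have e : x (u c) - x c - (x (u c') - x c') = (x (u c) - x (u c')) - (x c - x c') := by ring
      rw [e]
      exact (abs_sub _ _).trans (by linarith)
    have e : 1 + (r * (|x (u c) - x c| / 2)) - (1 + (r * (|x (u c') - x c'| / 2))) =
      (r / 2) * (|x (u c) - x c| - |x (u c') - x c'|) := by ring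
    rw [e]
    rw [abs_le] at h3 ⊢
    constructor <;> nlinarith

/-- fibre estimate for codes at the same lifted position -/
theorem fib_same {c c' : Code n} {l : ℕ} {s s' : ℝ} (h : P c l = P c' l) (hs : s ∈ Icc (-1 : ℝ) 2)
    (hs' : s' ∈ Icc (-1 : ℝ) 2) (hF : F l c s = F l c' s') :
    |(Phi c s).1 - (Phi c' s').1| ≤ 2 * w n l ∧ |(Phi c s).2 - (Phi c' s').2| ≤ 2 * w n l := by
  have hw := w_pos n l
  have hb := bit_of_P h
  have hx := x_of_P h
  have hE : tau c l * s + (1 - tau c l) * min s 1 = tau c' l * s' + (1 - tau c' l) * min s' 1 := by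
    unfold F at hF
    rw [h, hb] at hF
    cases h2 : c'.1 l <;> rw [h2] at hF <;> simp [sg] at hF <;> linarith
  rcases tau_cases c l with ⟨t1, t2⟩ | ⟨t1, t2⟩ <;> rcases tau_cases c' l with ⟨t3, t4⟩ | ⟨t3, t4⟩ <;>
    rw [t1, t3] at hE <;> simp only [zero_mul, one_mul, zero_add, sub_zero, sub_self, add_zero] at hE
  · -- both turning
    rcases lt_or_ge s 1 with h1 | h1
    · have h2 : s' < 1 := by
        by_contra hcon
        rw [min_eq_left h1.le, min_eq_right (not_lt.1 hcon)] at hE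
        linarith
      rw [min_eq_left h1.le, min_eq_left h2.le] at hE
      subst hE
      have := low_close h hs.1 h1.le
      exact ⟨by linarith [this.1], by linarith [this.2]⟩
    · have h2 : 1 ≤ s' := by
        by_contra hcon
        rw [min_eq_right h1, min_eq_left (not_le.1 hcon).le] at hE
        linarith
      have a1 := top_close t2 h1 hs.2
      have a2 := top_close t4 h2 hs'.2
      obtain ⟨b1, b2⟩ := a1
      obtain ⟨b3, b4⟩ := a2
      rw [abs_le] at b1 b2 b3 b4 hx
      exact ⟨abs_le.2 ⟨by linarith [b1.1, b1.2, b3.1, b3.2, hx.1, hx.2],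
          by linarith [b1.1, b1.2, b3.1, b3.2, hx.1, hx.2]⟩,
        abs_le.2 ⟨by linarith [b2.1, b2.2, b4.1, b4.2], by linarith [b2.1, b2.2, b4.1, b4.2]⟩⟩
  · -- c turning, c' not
    rcases lt_or_ge s 1 with h1 | h1
    · rw [min_eq_left h1.le] at hE
      subst hE
      have := low_close h hs.1 h1.le
      exact ⟨by linarith [this.1], by linarith [this.2]⟩
    · rw [min_eq_right h1] at hE
      subst hE
      obtain ⟨b1, b2⟩ := top_close t2 h1 hs.2
      rw [Phi_win c' (by norm_num : (0 : ℝ) ≤ 1) le_rfl]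
      rw [abs_le] at b1 b2 hx
      exact ⟨abs_le.2 ⟨by simp only; linarith [b1.1, b1.2, hx.1, hx.2],
          by simp only; linarith [b1.1, b1.2, hx.1, hx.2]⟩,
        abs_le.2 ⟨by simp only; linarith [b2.1, b2.2], by simp only; linarith [b2.1, b2.2]⟩⟩
  · rcases lt_or_ge s' 1 with h1 | h1
    · rw [min_eq_left h1.le] at hE
      subst hE
      have := low_close h hs.1 h1.le
      exact ⟨by linarith [this.1], by linarith [this.2]⟩
    · rw [min_eq_right h1] at hE
      subst hE
      obtain ⟨b1, b2⟩ := top_close t4 h1 hs'.2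
      rw [Phi_win c (by norm_num : (0 : ℝ) ≤ 1) le_rfl]
      rw [abs_le] at b1 b2 hx
      exact ⟨abs_le.2 ⟨by simp only; linarith [b1.1, b1.2, hx.1, hx.2],
          by simp only; linarith [b1.1, b1.2, hx.1, hx.2]⟩,
        abs_le.2 ⟨by simp only; linarith [b2.1, b2.2], by simp only; linarith [b2.1, b2.2]⟩⟩
  · subst hE
    rcases le_or_gt s 1 with h1 | h1
    · have := low_close h hs.1 h1
      exact ⟨by linarith [this.1], by linarith [this.2]⟩
    · have hu' : P (u c) l = P (u c') l := by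
        rcases P_u c l with h3 | h3
        · exact absurd h3 t2
        · rcases P_u c' l with h4 | h4
          · exact absurd h4 t4
          · rw [h3, h4, h, hb]
      have := up_close h hu' h1.le hs.2
      exact ⟨by linarith [this.1], by linarith [this.2]⟩

theorem Phi_two (c : Code n) : Phi (u c) 2 = Phi c 2 := by
  rw [Phi_up _ (by norm_num : (1 : ℝ) ≤ 2), Phi_up _ (by norm_num : (1 : ℝ) ≤ 2), u_u,
    abs_sub_comm]
  ext <;> simp <;> ring

theorem Phi_neg (c : Code n) : Phi (v c) (-1) = Phi c (-1) := by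
  rw [Phi_down _ (by norm_num : (-1 : ℝ) ≤ 0), Phi_down _ (by norm_num : (-1 : ℝ) ≤ 0), v_v,
    abs_sub_comm]
  ext <;> simp <;> ring

theorem fib {c c' : Code n} {l : ℕ} {s s' : ℝ} (hs : s ∈ Icc (-1 : ℝ) 2)
    (hs' : s' ∈ Icc (-1 : ℝ) 2) (hF : F l c s = F l c' s') :
    |(Phi c s).1 - (Phi c' s').1| ≤ 2 * w n l ∧ |(Phi c s).2 - (Phi c' s').2| ≤ 2 * w n l := by
  -- bound on the varying part
  have hE : ∀ (c : Code n) {s : ℝ}, s ∈ Icc (-1 : ℝ) 2 →
      -(3 / 2) ≤ (tau c l * s + (1 - tau c l) * min s 1) - 1 / 2 ∧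
      (tau c l * s + (1 - tau c l) * min s 1) - 1 / 2 ≤ 3 / 2 ∧
      ((tau c l * s + (1 - tau c l) * min s 1) - 1 / 2 = 3 / 2 → s = 2 ∧ P (u c) l ≠ P c l) ∧
      ((tau c l * s + (1 - tau c l) * min s 1) - 1 / 2 = -(3 / 2) → s = -1) := by
    intro c s hs
    rcases tau_cases c l with ⟨t1, t2⟩ | ⟨t1, t2⟩ <;> rw [t1] <;>
      simp only [zero_mul, one_mul, zero_add, sub_zero, sub_self, add_zero]
    · have h1 : min s 1 ≤ 1 := min_le_right _ _
      have h2 : -1 ≤ min s 1 := le_min hs.1 (by norm_num)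
      refine ⟨by linarith, by linarith, fun h => by linarith, fun h => ?_⟩
      rcases min_choice s 1 with h3 | h3 <;> linarith
    · exact ⟨by linarith [hs.1], by linarith [hs.2], fun h => ⟨by linarith, t2⟩,
        fun h => by linarith⟩
  have key : ∀ {c c' : Code n} {s s' : ℝ}, s ∈ Icc (-1 : ℝ) 2 → s' ∈ Icc (-1 : ℝ) 2 →
      F l c s = F l c' s' → P c l < P c' l →
      |(Phi c s).1 - (Phi c' s').1| ≤ 2 * w n l ∧ |(Phi c s).2 - (Phi c' s').2| ≤ 2 * w n l := by
    intro c c' s s' hs hs' hF hlt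
    obtain ⟨e1, e2, e3, e4⟩ := hE c hs
    obtain ⟨e1', e2', e3', e4'⟩ := hE c' hs'
    have hP : (P c l : ℝ) + 1 ≤ P c' l := by exact_mod_cast hlt
    have hF0 := hF
    unfold F at hF
    generalize (tau c l * s + (1 - tau c l) * min s 1) - 1 / 2 = E at *
    generalize (tau c' l * s' + (1 - tau c' l) * min s' 1) - 1 / 2 = E' at *
    have hPe : P c' l = P c l + 1 := by
      by_contra hne
      have : (P c l : ℝ) + 2 ≤ P c' l := by
        exact_mod_cast (by omega : P c l + 2 ≤ P c' l)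
      cases h1 : c.1 l <;> cases h2 : c'.1 l <;> rw [h1, h2] at hF <;> simp [sg] at hF <;> linarith
    have hbit := bit_of_P_ne (Or.inl hPe)
    have hPr : (P c' l : ℝ) = P c l + 1 := by exact_mod_cast hPe
    rw [hPr, hbit, sg_not] at hF
    cases h1 : c.1 l
    · -- sign -1
      rw [h1] at hF
      simp [sg] at hF
      have hs1 := e4 (by linarith)
      have hs2 := e4' (by linarith)
      subst hs1 hs2
      rw [← Phi_neg c]
      refine fib_same (l := l) ?_ (by norm_num) (by norm_num) ?_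
      · rw [P_v, hPe, h1]; simp
      · rw [← hF0]
        exact F_compat l (by norm_num) (by norm_num) (Phi_neg c)
    · rw [h1] at hF
      simp [sg] at hF
      have hs1 := e3 (by linarith)
      have hs2 := e3' (by linarith)
      obtain ⟨rfl, hu1⟩ := hs1
      obtain ⟨rfl, hu2⟩ := hs2
      rw [← Phi_two c]
      refine fib_same (l := l) ?_ (by norm_num) (by norm_num) ?_
      · rcases P_u c l with h3 | h3
        · exact absurd h3 hu1
        · rw [h3, hPe, h1]; simp
      · rw [← hF0]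
        exact F_compat l (by norm_num) (by norm_num) (Phi_two c)
  rcases lt_trichotomy (P c l) (P c' l) with h | h | h
  · exact key hs hs' hF h
  · exact fib_same h hs hs' hF
  · have := key hs' hs hF.symm h
    rw [abs_sub_comm, abs_sub_comm (Phi c s).2]
    exact this

end Pool.Agent.H.MP_82e23a_gt
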