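import Pool.Agent.H.MP_82e23a_gt.Chain

set_option autoImplicit false

/-! The continuum is connected and chainable. -/

namespace Pool.Agent.H.MP_82e23a_gt

open Set

variable {n : ℕ → ℕ}

/-- a strand -/
def strand (c : Code n) : Set (ℝ × ℝ) := Phi c '' Icc (-1 : ℝ) 2

theorem cont_Phi1 (c : Code n) : Continuous (Phi c) :=
  cont_Phi.comp (Continuous.prodMk continuous_const continuous_id)

theorem strand_pre (c : Code n) (a b : ℝ) : IsPreconnected (Phi c '' Icc a b) :=
  isPreconnected_Icc.image _ (cont_Phi1 c).continuousOn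

theorem strand_sub (c : Code n) : strand c ⊆ K n := by
  rintro p ⟨s, hs, rfl⟩
  exact mem_K.2 ⟨c, s, hs, rfl⟩

theorem w_small (n : ℕ → ℕ) {δ : ℝ} (hδ : 0 < δ) : ∃ m, w n m < δ := by
  obtain ⟨m, hm⟩ := exists_pow_lt_of_lt_one hδ (by norm_num : (1 / 8 : ℝ) < 1)
  refine ⟨m, lt_of_le_of_lt ?_ hm⟩
  have := w_add_le n 0 m
  simpa [w] using this

theorem x_pre {c c' : Code n} {m : ℕ} (h : Pre m c c') : |x c' - x c| ≤ w n m :=
  x_close c c' m (dig_of_pre h)

instance : Nonempty (Code n) := ⟨(fun _ => true, fun _ => 0)⟩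

theorem preconn_K : IsPreconnected (K n) := by
  rw [isPreconnected_iff_subset_of_disjoint]
  intro U V hU hV hUV hdis
  -- each strand lies in one of the two
  have hone : ∀ c : Code n, (strand c ⊆ U ∨ strand c ⊆ V) := fun c =>
    isPreconnected_iff_subset_of_disjoint.1 (strand_pre c _ _) U V hU hV
      ((strand_sub c).trans hUV) (by
        rw [eq_empty_iff_forall_notMem] at hdis ⊢
        rintro p ⟨h1, h2⟩
        exact hdis p ⟨strand_sub c h1, h2⟩)
  have hnot : ∀ p ∈ K n, ¬ (p ∈ U ∧ p ∈ V) := by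
    intro p hp hh
    rw [eq_empty_iff_forall_notMem] at hdis
    exact hdis p ⟨hp, hh⟩
  obtain ⟨δ, hδ, hleb⟩ := lebesgue_number_lemma_of_metric (s := K n)
    (c := fun i : Bool => if i then U else V) isCompact_K
    (fun i => by cases i <;> simp [hU, hV]) (by
      intro p hp
      rcases hUV hp with h | h
      · exact mem_iUnion.2 ⟨true, by simpa using h⟩
      · exact mem_iUnion.2 ⟨false, by simpa using h⟩)
  obtain ⟨m, hm⟩ := w_small n hδ
  have mem_s : ∀ (c : Code n) (s : ℝ), s ∈ Icc (-1 : ℝ) 2 → Phi c s ∈ strand c :=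
    fun c s hs => ⟨s, hs, rfl⟩
  have hk := conn (n := n) (fun c => strand c ⊆ U) (fun c => ?_) (fun c => ?_) m ?_
  · obtain ⟨c0⟩ := (inferInstance : Nonempty (Code n))
    rcases hone c0 with h0 | h0
    · left
      intro p hp
      obtain ⟨c, s, hs, rfl⟩ := mem_K.1 hp
      have : strand c ⊆ U := by rw [hk c c0]; exact h0
      exact this (mem_s c s hs)
    · right
      intro p hp
      obtain ⟨c, s, hs, rfl⟩ := mem_K.1 hp
      rcases hone c with h1 | h1
      · exfalso
        have h2 : strand c0 ⊆ U := by rw [hk c0 c]; exact h1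
        have h3 := mem_s c0 0 (by norm_num)
        exact hnot _ (strand_sub c0 h3) ⟨h2 h3, h0 h3⟩
      · exact h1 (mem_s c s hs)
  · -- u-invariance
    have h2 := mem_s c 2 (by norm_num)
    have h2' := mem_s (u c) 2 (by norm_num)
    apply propext
    constructor
    · intro h
      rcases hone c with h1 | h1
      · exact h1
      · exfalso
        have := h h2'
        rw [Phi_two] at this
        exact hnot _ (strand_sub c h2) ⟨this, h1 h2⟩
    · intro h
      rcases hone (u c) with h1 | h1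
      · exact h1
      · exfalso
        have := h1 h2'
        rw [Phi_two] at this
        exact hnot _ (strand_sub c h2) ⟨h h2, this⟩
  · have h2 := mem_s c (-1) (by norm_num)
    have h2' := mem_s (v c) (-1) (by norm_num)
    apply propext
    constructor
    · intro h
      rcases hone c with h1 | h1
      · exact h1
      · exfalso
        have := h h2'
        rw [Phi_neg] at this
        exact hnot _ (strand_sub c h2) ⟨this, h1 h2⟩
    · intro h
      rcases hone (v c) with h1 | h1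
      · exact h1
      · exfalso
        have := h1 h2'
        rw [Phi_neg] at this
        exact hnot _ (strand_sub c h2) ⟨h h2, this⟩
  · -- dependence on the prefix
    have main : ∀ c c' : Code n, Pre m c c' → strand c ⊆ U → strand c' ⊆ U := by
      intro c c' hp h
      rcases hone c' with h1 | h1
      · exact h1
      · exfalso
        have a1 := mem_s c 0 (by norm_num)
        have a2 := mem_s c' 0 (by norm_num)
        obtain ⟨i, hi⟩ := hleb _ (strand_sub c a1)
        have hd : dist (Phi c' 0) (Phi c 0) < δ := by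
          rw [Phi_win c le_rfl (by norm_num), Phi_win c' le_rfl (by norm_num), Prod.dist_eq]
          simp only [dist_self]
          rw [Real.dist_eq, max_eq_left (abs_nonneg _)]
          exact (x_pre hp).trans_lt hm
        have b1 := hi (Metric.mem_ball_self hδ)
        have b2 := hi (Metric.mem_ball.2 hd)
        cases i
        · simp only [Bool.false_eq_true, if_false] at b1 b2
          exact hnot _ (strand_sub c a1) ⟨h a1, b1⟩
        · simp only [if_true] at b1 b2
          exact hnot _ (strand_sub c' a2) ⟨b2, h1 a2⟩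
    intro c c' hp
    have hp' : Pre m c' c := ⟨fun i hi => (hp.1 i hi).symm, fun i hi => (hp.2 i hi).symm⟩
    exact propext ⟨main c c' hp, main c' c hp'⟩

/-- general chainability criterion -/
theorem chainable_of {E Z : Type*} [MetricSpace E] [TopologicalSpace Z] [CompactSpace Z]
    [Nonempty Z] (Φ : Z → E) (hΦ : Continuous Φ) (G : Z → ℝ) (hG : Continuous G)
    (hcomp : ∀ z z', Φ z = Φ z' → G z = G z') (ε η : ℝ) (hη : η < ε)
    (hfib : ∀ z z', G z = G z' → dist (Φ z) (Φ z') ≤ η) (hconn : IsPreconnected (range Φ)) :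
    ∃ m : ℕ, ∃ U : Fin m → Set E, (∀ i, IsOpen (U i)) ∧ range Φ ⊆ ⋃ i, U i ∧
      (∀ i j : Fin m, ((range Φ ∩ U i ∩ U j).Nonempty ↔
        ((i : ℕ) ≤ (j : ℕ) + 1 ∧ (j : ℕ) ≤ (i : ℕ) + 1))) ∧
      ∀ i, Metric.diam (range Φ ∩ U i) < ε := by
  -- uniform smallness
  obtain ⟨ε', h1ε, h2ε⟩ := exists_between hη
  obtain ⟨δ, hδ, hunif⟩ : ∃ δ > 0, ∀ z z', |G z - G z'| < δ → dist (Φ z) (Φ z') < ε' := by
    by_contra hcon
    push Not at hcon
    let B : Set (Z × Z) := {p | ε' ≤ dist (Φ p.1) (Φ p.2)}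
    have hB : IsClosed B := isClosed_le continuous_const
      ((hΦ.comp continuous_fst).dist (hΦ.comp continuous_snd))
    have hBc : IsCompact B := hB.isCompact
    obtain ⟨z, z', _, hz⟩ := hcon 1 one_pos
    have hne : B.Nonempty := ⟨(z, z'), hz⟩
    obtain ⟨p, hp, hmin⟩ := hBc.exists_isMinOn hne
      (f := fun p : Z × Z => |G p.1 - G p.2|) (by fun_prop)
    have hpos : 0 < |G p.1 - G p.2| := by
      rw [abs_pos, sub_ne_zero]
      intro e
      have := hfib _ _ e
      exact absurd (lt_of_lt_of_le h1ε hp) (not_lt.2 this)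
    obtain ⟨a, b, h3, h4⟩ := hcon _ hpos
    exact absurd h3 (not_lt.2 (hmin (show (a, b) ∈ B from h4)))
  obtain ⟨za, -, hza⟩ := isCompact_univ.exists_isMinOn univ_nonempty hG.continuousOn
  obtain ⟨zb, -, hzb⟩ := isCompact_univ.exists_isMaxOn univ_nonempty hG.continuousOn
  set α := G za with hα
  set β := G zb with hβ
  have hmin : ∀ z, α ≤ G z := fun z => hza (mem_univ z)
  have hmax : ∀ z, G z ≤ β := fun z => hzb (mem_univ z)
  -- intermediate values
  have hsurj : ∀ t, α ≤ t → t ≤ β → ∃ z, G z = t := by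
    intro t h1 h2
    by_contra hcon
    push Not at hcon
    have c1 : IsClosed (Φ '' (G ⁻¹' Iic t)) :=
      ((isClosed_Iic.preimage hG).isCompact.image hΦ).isClosed
    have c2 : IsClosed (Φ '' (G ⁻¹' Ici t)) :=
      ((isClosed_Ici.preimage hG).isCompact.image hΦ).isClosed
    obtain ⟨p, -, ⟨z, hz, rfl⟩, ⟨z', hz', he⟩⟩ := isPreconnected_closed_iff.1 hconn _ _ c1 c2
      (by
        rintro _ ⟨z, rfl⟩
        rcases le_total (G z) t with h | h
        · exact Or.inl ⟨z, h, rfl⟩
        · exact Or.inr ⟨z, h, rfl⟩)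
      ⟨Φ za, ⟨za, rfl⟩, ⟨za, h1, rfl⟩⟩ ⟨Φ zb, ⟨zb, rfl⟩, ⟨zb, h2, rfl⟩⟩
    have := hcomp _ _ he
    simp only [mem_preimage, mem_Iic, mem_Ici] at hz hz'
    exact hcon z (le_antisymm hz (by linarith))
  have hαβ : α ≤ β := hmin zb
  -- number of links
  set h := δ / 2 with hh
  have hh0 : 0 < h := by positivity
  set m := ⌊(β - α) / h⌋₊ + 1 with hm
  have hfl : (⌊(β - α) / h⌋₊ : ℝ) ≤ (β - α) / h :=
    Nat.floor_le (div_nonneg (by linarith) hh0.le)
  let I : ℕ → Set ℝ := fun i => Ioo (α + h * (i - 1 / 4)) (α + h * (i + 5 / 4))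
  let U : Fin m → Set E := fun i => (Φ '' (G ⁻¹' (I i)ᶜ))ᶜ
  have hUopen : ∀ i, IsOpen (U i) := fun i =>
    (((isOpen_Ioo.isClosed_compl.preimage hG).isCompact.image hΦ).isClosed).isOpen_compl
  have hmem : ∀ (i : Fin m) (z : Z), Φ z ∈ U i ↔ G z ∈ I i := by
    intro i z
    constructor
    · intro h1
      by_contra h2
      exact h1 ⟨z, h2, rfl⟩
    · rintro h1 ⟨z', h2, h3⟩
      exact h2 (by rw [hcomp _ _ h3]; exact h1)
  have hival : ∀ i : ℕ, i < m → ∃ z, G z = α + h * i := by
    intro i hi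
    refine hsurj _ (by nlinarith [Nat.cast_nonneg (α := ℝ) i]) ?_
    have h1 : (i : ℝ) ≤ ⌊(β - α) / h⌋₊ := by exact_mod_cast Nat.lt_succ_iff.1 hi
    have h2 : (i : ℝ) ≤ (β - α) / h := h1.trans hfl
    rw [le_div_iff₀ hh0] at h2
    linarith
  refine ⟨m, U, hUopen, ?_, ?_, ?_⟩
  · rintro _ ⟨z, rfl⟩
    set i := ⌊(G z - α) / h⌋₊ with hi
    have h0 : 0 ≤ (G z - α) / h := div_nonneg (by linarith [hmin z]) hh0.le
    have h1 : (i : ℝ) ≤ (G z - α) / h := Nat.floor_le h0
    have h2 : (G z - α) / h < i + 1 := Nat.lt_floor_add_one _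
    have him : i < m := by
      refine Nat.lt_succ_iff.2 (Nat.floor_le_floor ?_)
      exact div_le_div_of_nonneg_right (by linarith [hmax z]) hh0.le
    refine mem_iUnion.2 ⟨⟨i, him⟩, (hmem _ z).2 ?_⟩
    rw [le_div_iff₀ hh0] at h1
    rw [div_lt_iff₀ hh0] at h2
    exact ⟨by simp only; nlinarith, by simp only; nlinarith⟩
  · intro i j
    constructor
    · rintro ⟨p, ⟨⟨z, rfl⟩, h1⟩, h2⟩
      rw [hmem] at h1 h2
      obtain ⟨a1, a2⟩ := h1
      obtain ⟨b1, b2⟩ := h2
      have c1 : (i : ℝ) - 1 / 4 < (j : ℝ) + 5 / 4 := by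
        by_contra hcon
        push Not at hcon
        nlinarith
      have c2 : (j : ℝ) - 1 / 4 < (i : ℝ) + 5 / 4 := by
        by_contra hcon
        push Not at hcon
        nlinarith
      constructor
      · by_contra hcon
        push Not at hcon
        have : ((j : ℕ) : ℝ) + 2 ≤ (i : ℕ) := by exact_mod_cast hcon
        linarith
      · by_contra hcon
        push Not at hcon
        have : ((i : ℕ) : ℝ) + 2 ≤ (j : ℕ) := by exact_mod_cast hcon
        linarith
    · rintro ⟨h1, h2⟩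
      -- the point with value at the larger index
      have key : ∀ a b : Fin m, (a : ℕ) ≤ b → (b : ℕ) ≤ (a : ℕ) + 1 →
          ∃ z, G z ∈ I a ∧ G z ∈ I b := by
        intro a b hab hba
        obtain ⟨z, hz⟩ := hival b b.2
        refine ⟨z, ?_, ?_⟩
        · rw [hz]
          have e1 : ((a : ℕ) : ℝ) ≤ (b : ℕ) := by exact_mod_cast hab
          have e2 : ((b : ℕ) : ℝ) ≤ (a : ℕ) + 1 := by exact_mod_cast hba
          exact ⟨by nlinarith, by nlinarith⟩
        · rw [hz]
          exact ⟨by nlinarith, by nlinarith⟩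
      rcases le_total (i : ℕ) (j : ℕ) with h3 | h3
      · obtain ⟨z, z1, z2⟩ := key i j h3 h2
        exact ⟨Φ z, ⟨⟨z, rfl⟩, (hmem _ z).2 z1⟩, (hmem _ z).2 z2⟩
      · obtain ⟨z, z1, z2⟩ := key j i h3 h1
        exact ⟨Φ z, ⟨⟨z, rfl⟩, (hmem _ z).2 z2⟩, (hmem _ z).2 z1⟩
  · intro i
    refine lt_of_le_of_lt (Metric.diam_le_of_forall_dist_le_of_nonempty ?_ ?_) h2ε
    · obtain ⟨z, hz⟩ := hival i i.2
      refine ⟨Φ z, ⟨z, rfl⟩, (hmem _ z).2 ?_⟩
      rw [hz]
      exact ⟨by nlinarith, by nlinarith⟩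
    · rintro _ ⟨⟨z, rfl⟩, h1⟩ _ ⟨⟨z', rfl⟩, h2⟩
      rw [hmem] at h1 h2
      obtain ⟨a1, a2⟩ := h1
      obtain ⟨b1, b2⟩ := h2
      refine (hunif z z' ?_).le
      rw [abs_lt]
      constructor <;> nlinarith

end Pool.Agent.H.MP_82e23a_gt
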