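import Pool.Agent.H.MP_82e23a_gt.Ind

set_option autoImplicit false

/-! Assembling: no ambiently universal chainable plane continuum. -/

namespace Pool.Agent.H.MP_82e23a_gt

open Set

abbrev E2 : Type := EuclideanSpace ℝ (Fin 2)

/-- coordinates of the plane -/
noncomputable def T : E2 ≃L[ℝ] ℝ × ℝ :=
  (EuclideanSpace.equiv (Fin 2) ℝ).trans (ContinuousLinearEquiv.finTwoArrow ℝ ℝ)

theorem T_lip (p q : ℝ × ℝ) : dist (T.symm p) (T.symm q) ≤
    ‖(T.symm : (ℝ × ℝ) →L[ℝ] E2)‖ * dist p q := by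
  rw [dist_eq_norm, dist_eq_norm, ← map_sub]
  exact (T.symm : (ℝ × ℝ) →L[ℝ] E2).le_opNorm _

/-- chainability as in the frozen statement -/
def Chainable (M : Set E2) : Prop :=
  IsCompact M ∧ IsConnected M ∧
      ∀ ε : ℝ, 0 < ε → ∃ n : ℕ, ∃ U : Fin n → Set E2,
        (∀ i, IsOpen (U i)) ∧ M ⊆ ⋃ i, U i ∧
        (∀ i j : Fin n, ((M ∩ U i ∩ U j).Nonempty ↔
            ((i : ℕ) ≤ (j : ℕ) + 1 ∧ (j : ℕ) ≤ (i : ℕ) + 1))) ∧
        ∀ i, Metric.diam (M ∩ U i) < ε

theorem chainable_K (n : ℕ → ℕ) : Chainable (T.symm '' K n) := by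
  have hne : (K n).Nonempty := by
    obtain ⟨c⟩ := (inferInstance : Nonempty (Code n))
    exact ⟨_, win_mem c le_rfl (by norm_num : (0 : ℝ) ≤ 1)⟩
  refine ⟨isCompact_K.image T.symm.continuous,
    ⟨hne.image _, preconn_K.image _ T.symm.continuous.continuousOn⟩, fun ε hε => ?_⟩
  set C := ‖(T.symm : (ℝ × ℝ) →L[ℝ] E2)‖ with hC
  have hC0 : 0 ≤ C := norm_nonneg _
  obtain ⟨l, hl⟩ := w_small n (δ := ε / (2 * (C + 1))) (by positivity)
  have hw := w_pos n l
  have hZ : Nonempty (Icc (-1 : ℝ) 2) := ⟨⟨0, by norm_num, by norm_num⟩⟩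
  let Φ : Code n × Icc (-1 : ℝ) 2 → E2 := fun z => T.symm (Phi z.1 z.2)
  have hr : range Φ = T.symm '' K n := by
    ext p
    constructor
    · rintro ⟨⟨c, s⟩, rfl⟩
      exact ⟨_, mem_K.2 ⟨c, s, s.2, rfl⟩, rfl⟩
    · rintro ⟨q, hq, rfl⟩
      obtain ⟨c, s, hs, rfl⟩ := mem_K.1 hq
      exact ⟨(c, ⟨s, hs⟩), rfl⟩
  have hΦ : Continuous Φ := T.symm.continuous.comp
    (cont_Phi.comp (continuous_fst.prodMk (continuous_subtype_val.comp continuous_snd)))
  have h := chainable_of Φ hΦ (fun z => F l z.1 z.2)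
    ((cont_F l).comp (continuous_fst.prodMk (continuous_subtype_val.comp continuous_snd)))
    (fun z z' h => F_compat l z.2.2 z'.2.2 (T.symm.injective h)) ε (C * (2 * w n l)) (by
      rw [lt_div_iff₀ (by positivity)] at hl
      nlinarith) (fun z z' h => by
      refine (T_lip _ _).trans (mul_le_mul_of_nonneg_left ?_ hC0)
      obtain ⟨h1, h2⟩ := fib z.2.2 z'.2.2 h
      rw [Prod.dist_eq, Real.dist_eq, Real.dist_eq]
      exact max_le h1 h2) (by
      rw [hr]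
      exact preconn_K.image _ T.symm.continuous.continuousOn)
  rw [hr] at h
  exact h

theorem covers {M : Set E2} (hM : Chainable M) (ε : ℝ) (hε : 0 < ε) :
    ∃ (m : ℕ) (W : ℕ → Set E2) (δ : ℝ), 0 < δ ∧ (∀ i, IsOpen (W i)) ∧
      (∀ p ∈ M, ∀ i j, p ∈ W i → p ∈ W j → j ≤ i + 1) ∧ (∀ i, m ≤ i → W i = ∅) ∧
      (∀ i, ∀ p ∈ M, ∀ q ∈ M, p ∈ W i → q ∈ W i → dist p q < ε) ∧
      (∀ p ∈ M, ∃ i, Metric.ball p δ ⊆ W i) := by
  obtain ⟨hc, -, hch⟩ := hM
  obtain ⟨m, U, h1, h2, h3, h4⟩ := hch ε hε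
  let W : ℕ → Set E2 := fun i => if hi : i < m then U ⟨i, hi⟩ else ∅
  have hW : ∀ (i : ℕ) (p : E2), p ∈ W i → ∃ hi : i < m, p ∈ U ⟨i, hi⟩ := by
    intro i p hp
    by_cases hi : i < m
    · refine ⟨hi, ?_⟩
      simpa only [W, dif_pos hi] using hp
    · exfalso
      simp only [W, dif_neg hi] at hp
      exact hp
  have hWo : ∀ i, IsOpen (W i) := by
    intro i
    by_cases hi : i < m
    · simp only [W, dif_pos hi]; exact h1 _
    · simp only [W, dif_neg hi]; exact isOpen_empty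
  obtain ⟨δ, hδ, hleb⟩ := lebesgue_number_lemma_of_metric (s := M) (c := W) hc hWo (by
    intro p hp
    obtain ⟨i, hi⟩ := mem_iUnion.1 (h2 hp)
    refine mem_iUnion.2 ⟨i, ?_⟩
    simp only [W, dif_pos i.2]
    exact hi)
  refine ⟨m, W, δ, hδ, hWo, ?_, ?_, ?_, hleb⟩
  · intro p hp i j hi hj
    obtain ⟨a, ha⟩ := hW i p hi
    obtain ⟨b, hb⟩ := hW j p hj
    exact ((h3 ⟨i, a⟩ ⟨j, b⟩).1 ⟨p, ⟨hp, ha⟩, hb⟩).2
  · intro i hi
    simp only [W, dif_neg (not_lt.2 hi)]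
  · intro i p hp q hq hpi hqi
    obtain ⟨a, ha⟩ := hW i p hpi
    obtain ⟨b, hb⟩ := hW i q hqi
    refine lt_of_le_of_lt ?_ (h4 ⟨i, a⟩)
    exact Metric.dist_le_diam_of_mem (hc.isBounded.subset inter_subset_left) ⟨hp, ha⟩ ⟨hq, hb⟩

theorem no_universal : ¬ ∃ M : Set E2, Chainable M ∧ ∀ K : Set E2, Chainable K →
    ∃ h : E2 ≃ₜ E2, h '' K ⊆ M := by
  rintro ⟨M, hM, hU⟩
  have hcov := covers hM
  choose! m W δ hδ hWo hWf hWe hWs hWb using hcov
  let e : ℕ → ℝ := fun k => Nat.rec 1 (fun k e => min (δ e) (1 / ((k : ℝ) + 2))) k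
  have e0 : e 0 = 1 := rfl
  have es : ∀ k, e (k + 1) = min (δ (e k)) (1 / ((k : ℝ) + 2)) := fun k => rfl
  have hepos : ∀ k, 0 < e k := by
    intro k
    induction k with
    | zero => rw [e0]; exact one_pos
    | succ k ih => rw [es]; exact lt_min (hδ _ ih) (by positivity)
  have hele : ∀ k, e k ≤ 1 / ((k : ℝ) + 1) := by
    intro k
    cases k with
    | zero => rw [e0]; norm_num
    | succ k =>
      rw [es]
      refine (min_le_right _ _).trans (le_of_eq ?_)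
      push_cast
      ring
  have heδ : ∀ k, e (k + 1) ≤ δ (e k) := fun k => by rw [es]; exact min_le_left _ _
  clear_value e
  let n : ℕ → ℕ := fun l => m (e (2 * l + 1))
  obtain ⟨h, hh⟩ := hU _ (chainable_K n)
  let g : (ℝ × ℝ) ≃ₜ E2 := T.symm.toHomeomorph.trans h
  have hg : ∀ p ∈ K n, g p ∈ M := fun p hp => hh ⟨T.symm p, ⟨p, hp, rfl⟩, rfl⟩
  clear_value g
  -- uniform continuity of the inverse
  have hcomp : IsCompact (Metric.cthickening 1 M) := hM.1.cthickening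
  have huc := hcomp.uniformContinuousOn_of_continuous (f := g.symm) g.symm.continuous.continuousOn
  obtain ⟨η, hη, huc⟩ := Metric.uniformContinuousOn_iff.1 huc (1 / 8) (by norm_num)
  obtain ⟨k0, hk0⟩ := exists_nat_one_div_lt (lt_min hη one_pos)
  have hek : ∀ k, e (k0 + k) < min η 1 := by
    intro k
    refine (hele _).trans_lt (lt_of_le_of_lt ?_ hk0)
    apply one_div_le_one_div_of_le (by positivity)
    push_cast
    linarith [Nat.cast_nonneg (α := ℝ) k]
  have hclose : ∀ p q : ℝ × ℝ, g q ∈ M → dist (g p) (g q) < min η 1 → dist p q < 1 / 8 := by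
    intro p q hq hpq
    have h1 : g q ∈ Metric.cthickening 1 M := Metric.self_subset_cthickening M hq
    have h2 : g p ∈ Metric.cthickening 1 M :=
      Metric.mem_cthickening_of_dist_le (g p) (g q) 1 M hq (hpq.trans_le (min_le_right _ _)).le
    have := huc (g p) h2 (g q) h1 (hpq.trans_le (min_le_left _ _))
    simpa using this
  let V : ℕ → ℕ → Set (ℝ × ℝ) := fun k i => g ⁻¹' (W (e (k0 + k)) i)
  have hC : ∀ k, Cov n (V k) := by
    intro k
    have hp := hepos (k0 + k)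
    refine ⟨fun i => (hWo _ hp i).preimage g.continuous, fun p hpK => ?_, fun p hpK i j hi hj => ?_,
      fun i p hpK q hqK hi hj => ?_⟩
    · obtain ⟨i, hi⟩ := hWb _ hp (g p) (hg p hpK)
      exact ⟨i, hi (Metric.mem_ball_self (hδ _ hp))⟩
    · exact hWf _ hp (g p) (hg p hpK) i j hi hj
    · exact hclose p q (hg q hqK)
        ((hWs _ hp i (g p) (hg p hpK) (g q) (hg q hqK) hi hj).trans (hek k))
  have hR : ∀ k, Ref n (V (k + 1)) (V k) := by
    intro k i' p hpK q hqK hi hj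
    have hp1 := hepos (k0 + k)
    have hp2 := hepos (k0 + (k + 1))
    obtain ⟨i, hi0⟩ := hWb _ hp1 (g q) (hg q hqK)
    refine ⟨i, g ⁻¹' (Metric.ball (g q) (e (k0 + (k + 1)))), ?_, ?_, ?_, ?_, ?_⟩
    · have h1 : IsPreconnected (g.symm '' (Metric.ball (g q) (e (k0 + (k + 1))))) :=
        (convex_ball _ _).isPreconnected.image _ g.symm.continuous.continuousOn
      rwa [g.symm.image_eq_preimage_symm] at h1
    · exact Metric.mem_ball.2 (hWs _ hp2 i' (g p) (hg p hpK) (g q) (hg q hqK) hi hj)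
    · exact Metric.mem_ball_self hp2
    · intro r hr
      refine hi0 (Metric.ball_subset_ball ?_ hr)
      exact heδ (k0 + k)
    · intro r hr
      exact hclose r q (hg q hqK) ((Metric.mem_ball.1 hr).trans (hek (k + 1)))
  have hL := main_res V hC hR k0
  have hcnt := count (hC (k0 + 1)) hL (m (e (k0 + (k0 + 1)))) (fun i hi => by
    change g ⁻¹' (W (e (k0 + (k0 + 1))) i) = ∅
    rw [hWe _ (hepos _) i hi, preimage_empty])
  have e1 : k0 + (k0 + 1) = 2 * k0 + 1 := by ring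
  rw [e1] at hcnt
  have : n k0 = m (e (2 * k0 + 1)) := rfl
  omega

end Pool.Agent.H.MP_82e23a_gt
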