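import Pool.Agent.H.MP_82e23a_gt.Order

set_option autoImplicit false

/-! The planar continuum. -/

namespace Pool.Agent.H.MP_82e23a_gt

open Set

variable {n : ℕ → ℕ}

theorem isOpen_pre (m : ℕ) (c : Code n) : IsOpen {c' : Code n | Pre m c c'} := by
  have e : {c' : Code n | Pre m c c'} =
      (⋂ i ∈ Finset.range (m + 1), {c' : Code n | c.1 i = c'.1 i}) ∩
      (⋂ i ∈ Finset.range m, {c' : Code n | c.2 i = c'.2 i}) := by
    ext c'
    simp only [Set.mem_ofPred_eq, Pre, Set.mem_inter_iff, Set.mem_iInter, Finset.mem_range]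
    constructor
    · rintro ⟨h1, h2⟩
      exact ⟨fun i hi => h1 i (by omega), fun i hi => h2 i hi⟩
    · rintro ⟨h1, h2⟩
      exact ⟨fun i hi => h1 i (by omega), fun i hi => h2 i hi⟩
  rw [e]
  refine IsOpen.inter ?_ ?_
  · refine isOpen_biInter_finset fun i _ => ?_
    have : Continuous fun c' : Code n => c'.1 i := (continuous_apply i).comp continuous_fst
    have h2 : {c' : Code n | c.1 i = c'.1 i} = (fun c' : Code n => c'.1 i) ⁻¹' {c.1 i} := by
      ext c'; simp [eq_comm]
    rw [h2]
    exact (isOpen_discrete _).preimage this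
  · refine isOpen_biInter_finset fun i _ => ?_
    have : Continuous fun c' : Code n => c'.2 i := (continuous_apply i).comp continuous_snd
    have h2 : {c' : Code n | c.2 i = c'.2 i} = (fun c' : Code n => c'.2 i) ⁻¹' {c.2 i} := by
      ext c'; simp [eq_comm]
    rw [h2]
    exact (isOpen_discrete _).preimage this

theorem Pre.refl (m : ℕ) (c : Code n) : Pre m c c := ⟨fun _ _ => rfl, fun _ _ => rfl⟩

theorem cont_of_pre {β : Type*} [TopologicalSpace β] (f : Code n → β) (m : ℕ)
    (h : ∀ c c', Pre m c c' → f c = f c') : Continuous f := by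
  apply IsLocallyConstant.continuous
  rw [IsLocallyConstant.iff_exists_open]
  intro c
  exact ⟨{c' | Pre m c c'}, isOpen_pre m c, Pre.refl m c, fun c' hc' => (h c c' hc').symm⟩

theorem cont_dig (l : ℕ) : Continuous fun c : Code n => (dig c l : ℝ) :=
  cont_of_pre _ l (fun c c' h => by rw [dig_of_pre h l le_rfl])

theorem cont_x : Continuous (x : Code n → ℝ) := by
  unfold x
  exact continuous_tsum (fun l => continuous_const.mul (cont_dig l))
    (summable_geometric_of_lt_one (by norm_num : (0 : ℝ) ≤ 1 / 8) (by norm_num))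
    (fun l c => term_bd c l)

theorem cont_v : Continuous (v : Code n → Code n) := by
  refine Continuous.prodMk ?_ continuous_snd
  refine continuous_pi fun l => ?_
  exact cont_of_pre _ l (fun c c' h => by
    change (!(c.1 l)) = (!(c'.1 l)); rw [h.1 l le_rfl])

theorem cont_u : Continuous (u : Code n → Code n) := by
  refine Continuous.prodMk ?_ ?_
  · refine continuous_pi fun l => ?_
    refine cont_of_pre _ (l + 1) (fun c c' h => ?_)
    change (u c).1 l = (u c').1 l
    rw [u_bit, u_bit, act_pre_eq h l (by omega), h.1 l (by omega), h.1 (l + 1) le_rfl,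
      h.2 l (by omega)]
  · refine continuous_pi fun l => ?_
    refine cont_of_pre _ (l + 1) (fun c c' h => ?_)
    change (u c).2 l = (u c').2 l
    apply Fin.ext
    rw [u_lane, u_lane, act_pre_eq h l (by omega), h.1 l (by omega), h.1 (l + 1) le_rfl,
      h.2 l (by omega)]

/-- parametrisation: window `s ∈ [0,1]`, upper half tent `s ∈ [1,2]`, lower half tent
`s ∈ [-1,0]`. -/
noncomputable def Phi (c : Code n) (s : ℝ) : ℝ × ℝ :=
  (x c + max (s - 1) 0 * ((x (u c) - x c) / 2) + max (-s) 0 * ((x (v c) - x c) / 2),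
   max 0 (min s 1) + max (s - 1) 0 * (|x (u c) - x c| / 2) - max (-s) 0 * (|x (v c) - x c| / 2))

theorem cont_Phi : Continuous fun p : Code n × ℝ => Phi p.1 p.2 := by
  have h1 : Continuous fun p : Code n × ℝ => x p.1 := cont_x.comp continuous_fst
  have h2 : Continuous fun p : Code n × ℝ => x (u p.1) := (cont_x.comp cont_u).comp continuous_fst
  have h3 : Continuous fun p : Code n × ℝ => x (v p.1) := (cont_x.comp cont_v).comp continuous_fst
  unfold Phi
  fun_prop

/-- the continuum -/
def K (n : ℕ → ℕ) : Set (ℝ × ℝ) :=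
  (fun p : Code n × ℝ => Phi p.1 p.2) '' (univ ×ˢ Icc (-1) 2)

theorem mem_K {p : ℝ × ℝ} : p ∈ K n ↔ ∃ (c : Code n) (s : ℝ), s ∈ Icc (-1 : ℝ) 2 ∧ Phi c s = p := by
  constructor
  · rintro ⟨⟨c, s⟩, ⟨-, hs⟩, rfl⟩; exact ⟨c, s, hs, rfl⟩
  · rintro ⟨c, s, hs, rfl⟩; exact ⟨(c, s), ⟨mem_univ _, hs⟩, rfl⟩

theorem isCompact_K : IsCompact (K n) :=
  (isCompact_univ.prod isCompact_Icc).image cont_Phi

theorem Phi_win (c : Code n) {s : ℝ} (h0 : 0 ≤ s) (h1 : s ≤ 1) : Phi c s = (x c, s) := by
  unfold Phi
  rw [max_eq_right (by linarith : s - 1 ≤ 0), max_eq_right (by linarith : -s ≤ 0),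
    min_eq_left h1, max_eq_right h0]
  simp

theorem Phi_up (c : Code n) {s : ℝ} (h0 : 1 ≤ s) : Phi c s =
    (x c + (s - 1) * ((x (u c) - x c) / 2), 1 + (s - 1) * (|x (u c) - x c| / 2)) := by
  unfold Phi
  rw [max_eq_left (by linarith : (0 : ℝ) ≤ s - 1), max_eq_right (by linarith : -s ≤ 0),
    min_eq_right h0, max_eq_right (by norm_num : (0 : ℝ) ≤ 1)]
  simp

theorem Phi_down (c : Code n) {s : ℝ} (h0 : s ≤ 0) : Phi c s =
    (x c + (-s) * ((x (v c) - x c) / 2), -((-s) * (|x (v c) - x c| / 2))) := by
  unfold Phi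
  rw [max_eq_right (by linarith : s - 1 ≤ 0), max_eq_left (by linarith : (0 : ℝ) ≤ -s),
    min_eq_left (by linarith : s ≤ 1), max_eq_left h0]
  simp

theorem win_mem (c : Code n) {s : ℝ} (h0 : 0 ≤ s) (h1 : s ≤ 1) : ((x c, s) : ℝ × ℝ) ∈ K n :=
  mem_K.2 ⟨c, s, ⟨by linarith, by linarith⟩, Phi_win c h0 h1⟩

/-- a point of `K` strictly inside the window lies on a vertical strand -/
theorem win_of_mem {p : ℝ × ℝ} (hp : p ∈ K n) (h0 : 0 < p.2) (h1 : p.2 < 1) :
    ∃ c : Code n, p = (x c, p.2) := by
  obtain ⟨c, s, hs, rfl⟩ := mem_K.1 hp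
  refine ⟨c, ?_⟩
  rcases le_or_gt s 0 with h | h
  · exfalso
    rw [Phi_down c h] at h0
    simp only at h0
    have : 0 ≤ (-s) * (|x (v c) - x c| / 2) := by
      have := abs_nonneg (x (v c) - x c)
      have : 0 ≤ -s := by linarith
      positivity
    linarith
  · rcases le_or_gt s 1 with h' | h'
    · rw [Phi_win c h.le h']
    · exfalso
      rw [Phi_up c h'.le] at h1
      simp only at h1
      have : 0 ≤ (s - 1) * (|x (u c) - x c| / 2) := by
        have := abs_nonneg (x (u c) - x c)
        have : 0 ≤ s - 1 := by linarith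
        positivity
      linarith

section inv
variable (W : Code n → Code n) (hW : ∀ c, W (W c) = c)
  (nc : ∀ c c', x c < x c' → x c' < x (W c) → x c < x (W c') ∧ x (W c') < x (W c))
include hW nc

theorem tent_disj {c c' : Code n} (h : x c ≤ x (W c)) (h' : x c' ≤ x (W c')) (hne : c ≠ c')
    {X : ℝ} (h1 : x c ≤ X) (h2 : X ≤ x (W c)) (h3 : x c' ≤ X) (h4 : X ≤ x (W c')) :
    min (X - x c) (x (W c) - X) ≠ min (X - x c') (x (W c') - X) := by
  have aux : ∀ {c c' : Code n}, x c ≤ x (W c) → x c' ≤ x (W c') → x c < x c' →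
      x c ≤ X → X ≤ x (W c) → x c' ≤ X → X ≤ x (W c') →
      min (X - x c) (x (W c) - X) ≠ min (X - x c') (x (W c') - X) := by
    intro c c' h h' hlt h1 h2 h3 h4 heq
    rcases lt_trichotomy (x c') (x (W c)) with h5 | h5 | h5
    · have := nc c c' hlt h5
      have : min (X - x c') (x (W c') - X) < min (X - x c) (x (W c) - X) :=
        lt_min ((min_le_left _ _).trans_lt (by linarith)) ((min_le_right _ _).trans_lt (by linarith))
      linarith
    · have e := x_inj h5
      rw [e, hW] at h'
      rw [e] at hlt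
      linarith
    · linarith
  rcases lt_trichotomy (x c) (x c') with h5 | h5 | h5
  · exact aux h h' h5 h1 h2 h3 h4
  · exact absurd (x_inj h5) hne
  · exact (aux h' h h5 h3 h4 h1 h2).symm

theorem half_tent {c c' : Code n} {r r' : ℝ} (hr : 0 ≤ r) (hr1 : r ≤ 1) (hr' : 0 ≤ r')
    (hr1' : r' ≤ 1)
    (hX : x c + r * ((x (W c) - x c) / 2) = x c' + r' * ((x (W c') - x c') / 2))
    (hY : r * (|x (W c) - x c| / 2) = r' * (|x (W c') - x c'| / 2)) : c' = c ∨ c' = W c := by
  -- canonical representative
  have rep : ∀ (c : Code n) (r : ℝ), 0 ≤ r → r ≤ 1 → ∃ c0, (c0 = c ∨ c0 = W c) ∧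
      x c0 ≤ x (W c0) ∧ x c0 ≤ x c + r * ((x (W c) - x c) / 2) ∧
      x c + r * ((x (W c) - x c) / 2) ≤ x (W c0) ∧
      r * (|x (W c) - x c| / 2) = min (x c + r * ((x (W c) - x c) / 2) - x c0)
        (x (W c0) - (x c + r * ((x (W c) - x c) / 2))) := by
    intro c r h0 h1
    rcases le_or_gt (x c) (x (W c)) with h | h
    · refine ⟨c, Or.inl rfl, h, by nlinarith, by nlinarith, ?_⟩
      rw [abs_of_nonneg (by linarith), min_eq_left (by nlinarith)]; ring
    · refine ⟨W c, Or.inr rfl, by rw [hW]; exact h.le, by nlinarith, by rw [hW]; nlinarith, ?_⟩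
      rw [hW, abs_of_neg (by linarith), min_eq_right (by nlinarith)]; ring
  obtain ⟨a, ha, a1, a2, a3, a4⟩ := rep c r hr hr1
  obtain ⟨b, hb, b1, b2, b3, b4⟩ := rep c' r' hr' hr1'
  have hab : a = b := by
    by_contra hne
    rw [← hX] at b2 b3 b4
    exact tent_disj W hW nc a1 b1 hne a2 a3 b2 b3 (by rw [← a4, ← b4, hY])
  subst hab
  rcases ha with ha | ha <;> rcases hb with hb | hb
  · left; rw [← ha, ← hb]
  · right; rw [← ha, hb, hW]
  · right; rw [← ha, hb]
  · left
    have : W (W c) = W (W c') := by rw [← ha, ← hb]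
    rw [hW, hW] at this; exact this.symm

end inv

/-- identifications of the parametrisation -/
theorem Phi_eq {c c' : Code n} {s s' : ℝ} (hs : s ∈ Icc (-1 : ℝ) 2) (hs' : s' ∈ Icc (-1 : ℝ) 2)
    (h : Phi c s = Phi c' s') :
    (c = c' ∧ s = s') ∨ (c' = u c ∧ s = 2 ∧ s' = 2) ∨ (c' = v c ∧ s = -1 ∧ s' = -1) ∨
    (c = c' ∧ u c = c ∧ 1 ≤ s ∧ 1 ≤ s') := by
  have aux : ∀ {c c' : Code n} {s s' : ℝ}, s ∈ Icc (-1 : ℝ) 2 → s' ∈ Icc (-1 : ℝ) 2 →
      s ≤ s' → Phi c s = Phi c' s' →
      (c = c' ∧ s = s') ∨ (c' = u c ∧ s = 2 ∧ s' = 2) ∨ (c' = v c ∧ s = -1 ∧ s' = -1) ∨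
      (c = c' ∧ u c = c ∧ 1 ≤ s ∧ 1 ≤ s') := by
    intro c c' s s' hs hs' hle h
    rcases le_or_gt 1 s with h1 | h1
    · -- both upper
      have h1' : 1 ≤ s' := h1.trans hle
      rw [Phi_up c h1, Phi_up c' h1', Prod.mk.injEq] at h
      obtain ⟨hX, hY⟩ := h
      have hY' : (s - 1) * (|x (u c) - x c| / 2) = (s' - 1) * (|x (u c') - x c'| / 2) := by
        linarith
      have hc := half_tent u u_u (fun c c' => nc_u) (by linarith) (by linarith [hs.2])
        (by linarith) (by linarith [hs'.2]) hX hY'
      rcases hc with hc | hc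
      · subst hc
        by_cases hu : u c' = c'
        · right; right; right; exact ⟨rfl, hu, h1, h1'⟩
        · left
          refine ⟨rfl, ?_⟩
          have hne : x (u c') - x c' ≠ 0 := fun e => hu (x_inj (by linarith))
          have : 0 < |x (u c') - x c'| := abs_pos.2 hne
          have h3 : (s - s') * |x (u c') - x c'| = 0 := by nlinarith
          rcases mul_eq_zero.1 h3 with h4 | h4
          · linarith
          · exact absurd h4 this.ne'
      · subst hc
        by_cases hu : u c = c
        · right; right; right; exact ⟨hu.symm, hu, h1, h1'⟩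
        · right; left
          rw [u_u] at hX hY'
          have hne : x (u c) - x c ≠ 0 := fun e => hu (x_inj (by linarith))
          have hpos : 0 < |x (u c) - x c| := abs_pos.2 hne
          rw [abs_sub_comm (x c) (x (u c))] at hY'
          have h3 : (s - s') * |x (u c) - x c| = 0 := by nlinarith
          have h4 : s = s' := by
            rcases mul_eq_zero.1 h3 with h4 | h4
            · linarith
            · exact absurd h4 hpos.ne'
          subst h4
          have h5 : (s - 2) * (x (u c) - x c) = 0 := by nlinarith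
          rcases mul_eq_zero.1 h5 with h6 | h6
          · exact ⟨rfl, by linarith, by linarith⟩
          · exact absurd h6 hne
    · rcases le_or_gt 0 s with h0 | h0
      · -- s in [0,1)
        rw [Phi_win c h0 h1.le] at h
        rcases le_or_gt 1 s' with h2 | h2
        · exfalso
          rw [Phi_up c' h2, Prod.mk.injEq] at h
          have := abs_nonneg (x (u c') - x c')
          have h3 : 0 ≤ s' - 1 := by linarith
          have : 0 ≤ (s' - 1) * (|x (u c') - x c'| / 2) := by positivity
          linarith [h.2]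
        · rw [Phi_win c' (h0.trans hle) h2.le, Prod.mk.injEq] at h
          left; exact ⟨x_inj h.1, h.2⟩
      · -- s < 0
        have hposc : 0 < |x (v c) - x c| :=
          abs_pos.2 (fun e => v_ne c (x_inj (by linarith)))
        have hlt : (Phi c s).2 < 0 := by
          rw [Phi_down c h0.le]
          have : 0 < (-s) * (|x (v c) - x c| / 2) := by
            have : 0 < -s := by linarith
            positivity
          simp only; linarith
        rcases le_or_gt 0 s' with h2 | h2
        · exfalso
          rw [h] at hlt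
          rcases le_or_gt 1 s' with h3 | h3
          · rw [Phi_up c' h3] at hlt
            have := abs_nonneg (x (u c') - x c')
            have h4 : 0 ≤ s' - 1 := by linarith
            have : 0 ≤ (s' - 1) * (|x (u c') - x c'| / 2) := by positivity
            simp only at hlt; linarith
          · rw [Phi_win c' h2 h3.le] at hlt
            simp only at hlt; linarith
        · rw [Phi_down c h0.le, Phi_down c' h2.le, Prod.mk.injEq] at h
          obtain ⟨hX, hY⟩ := h
          have hY' : (-s) * (|x (v c) - x c| / 2) = (-s') * (|x (v c') - x c'| / 2) := by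
            linarith
          have hc := half_tent v v_v (fun c c' => nc_v) (by linarith) (by linarith [hs.1])
            (by linarith) (by linarith [hs'.1]) hX hY'
          rcases hc with hc | hc
          · subst hc
            left
            refine ⟨rfl, ?_⟩
            have h3 : (s - s') * |x (v c') - x c'| = 0 := by nlinarith
            rcases mul_eq_zero.1 h3 with h4 | h4
            · linarith
            · exact absurd h4 hposc.ne'
          · subst hc
            right; right; left
            rw [v_v] at hX hY'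
            have hne : x (v c) - x c ≠ 0 := fun e => v_ne c (x_inj (by linarith))
            rw [abs_sub_comm (x c) (x (v c))] at hY'
            have h3 : (s - s') * |x (v c) - x c| = 0 := by nlinarith
            have h4 : s = s' := by
              rcases mul_eq_zero.1 h3 with h4 | h4
              · linarith
              · exact absurd h4 hposc.ne'
            subst h4
            have h5 : (s + 1) * (x (v c) - x c) = 0 := by nlinarith
            rcases mul_eq_zero.1 h5 with h6 | h6
            · exact ⟨rfl, by linarith, by linarith⟩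
            · exact absurd h6 hne
  rcases le_total s s' with hle | hle
  · exact aux hs hs' hle h
  · rcases aux hs' hs hle h.symm with ⟨h1, h2⟩ | ⟨h1, h2, h3⟩ | ⟨h1, h2, h3⟩ | ⟨h1, h2, h3, h4⟩
    · left; exact ⟨h1.symm, h2.symm⟩
    · right; left; exact ⟨by rw [h1, u_u], h3, h2⟩
    · right; right; left; exact ⟨by rw [h1, v_v], h3, h2⟩
    · right; right; right; exact ⟨h1.symm, by rw [← h1]; exact h2, h4, h3⟩

end Pool.Agent.H.MP_82e23a_gt
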