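import Pool.Agent.H.MP_82e23a_gt.Slide

set_option autoImplicit false

/-! Lanes determine the next parity; the induction over levels; counting. -/

namespace Pool.Agent.H.MP_82e23a_gt

open Set

variable {n : ℕ → ℕ} {V V' : ℕ → Set (ℝ × ℝ)}

/-- distance to the centre -/
def dd (p : ℤ) : ℤ := if 0 ≤ p then p else -1 - p

theorem not_sameL_of_P {l : ℕ} {c c' : Code n} (h : P c' l ≠ P c l) : ¬ sameL l c c' :=
  fun h' => h h'.P_eq.symm

theorem move_v (c : Code n) (l : ℕ)
    (h : (0 < P c l ∧ c.1 l = true) ∨ (P c l < -1 ∧ c.1 l = false)) :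
    dd (P (v c) l) + 1 = dd (P c l) ∧ P (v c) l ≠ P c l ∧ (v c).1 (l + 1) = !(c.1 (l + 1)) := by
  rw [P_v]
  rcases h with ⟨h1, h2⟩ | ⟨h1, h2⟩ <;> rw [h2] <;> refine ⟨?_, ?_, rfl⟩
  · unfold dd; simp; split_ifs <;> omega
  · simp
  · unfold dd; simp; split_ifs <;> omega
  · simp

theorem move_u (c : Code n) (l : ℕ)
    (h : (0 < P c l ∧ c.1 l = false) ∨ (P c l < -1 ∧ c.1 l = true)) :
    dd (P (u c) l) + 1 = dd (P c l) ∧ P (u c) l ≠ P c l ∧ (u c).1 (l + 1) = !(c.1 (l + 1)) := by
  cases ha : act c l with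
  | false =>
    have ha' : act c (l + 1) = false := by simp [act, ha]
    have e1 : P (u c) l = P c l + (2 * bv (c.1 l) - 1) := by
      unfold P Pp
      rw [th_u c l ha, u_lane_false c l ha]; ring
    rw [e1, u_bit_false c (l + 1) ha']
    rcases h with ⟨h1, h2⟩ | ⟨h1, h2⟩ <;> rw [h2] <;> refine ⟨?_, ?_, rfl⟩
    · unfold dd; simp; split_ifs <;> omega
    · simp
    · unfold dd; simp; split_ifs <;> omega
    · simp
  | true =>
    have hth := (th_act c l).1 ha
    have hL := Ln_pos n l
    have hq := qf c l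
    rcases h with ⟨h1, h2⟩ | ⟨h1, h2⟩
    · have ha' : act c (l + 1) = false := by simp [act, h2]
      rw [h2] at hth
      simp at hth
      have hP : P c l = qj (c.2 l) * Ln n l := by unfold P Pp; rw [hth]; ring
      have hj : 3 ≤ (c.2 l : ℕ) := by
        by_contra hcon
        have : (c.2 l : ℕ) = 0 ∨ (c.2 l : ℕ) = 1 ∨ (c.2 l : ℕ) = 2 := by omega
        rcases this with h3 | h3 | h3 <;> rw [hP, h3] at h1 <;> simp [qj] at h1
        omega
      have hb : (u c).1 l = true := by
        rw [u_bit_true c l ha, h2]; simp [tb, hj]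
      have hl : ((u c).2 l : ℕ) = (c.2 l : ℕ) - 1 := by
        rw [u_lane_true c l ha, h2]; simp [tj, hj]
      have hth' := (th_act (u c) l).1 (by rw [act_u]; exact ha)
      rw [hb] at hth'
      simp at hth'
      have e1 : P (u c) l = P c l - 1 := by
        rw [hP]
        unfold P Pp
        rw [hth', hl]
        have h4 := qj_mul_succ (Ln n l) ((c.2 l : ℕ) - 1) (by omega)
        rw [Nat.sub_add_cancel (by omega)] at h4
        rw [h4]; ring
      rw [e1, u_bit_false c (l + 1) ha']
      refine ⟨?_, by omega, rfl⟩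
      unfold dd; split_ifs <;> omega
    · exfalso
      rw [h2] at hth
      simp at hth
      have hP : P c l = Ln n l - 1 + qj (c.2 l) * Ln n l := by unfold P Pp; rw [hth]
      have : (c.2 l : ℕ) = 0 ∨ (c.2 l : ℕ) = 1 ∨ 2 ≤ (c.2 l : ℕ) := by omega
      rcases this with h3 | h3 | h3
      · have := hq.h0 h3; omega
      · have := hq.h1 h3; omega
      · have := hq.h2 h3; omega

/-- at the centre -/
theorem centre (c c' : Code n) (l : ℕ) (h : dd (P c l) = 0) (hs : sameL l c c')
    (hb : c.1 (l + 1) ≠ c'.1 (l + 1)) :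
    ¬ sameL l c (u c) ∧ ¬ sameL l c' (u c') ∧ ¬ sameL l (u c) (u c') := by
  have hP : P c l = 0 ∨ P c l = -1 := by
    unfold dd at h; split_ifs at h <;> omega
  have hbd := th_bd c l
  have hL := Ln_pos n l
  have hq := qf c l
  have hj3 : (c.2 l : ℕ) = 0 ∨ (c.2 l : ℕ) = 1 ∨ 2 ≤ (c.2 l : ℕ) := by omega
  have hPd : P c l = th c l + qj (c.2 l) * Ln n l := rfl
  have hbit : c.1 l = c'.1 l := bit_of_P hs.P_eq
  have hlane : (c.2 l : ℕ) = (c'.2 l : ℕ) := by rw [hs.2]
  have hne : ∀ {a b : Code n}, ((a.2 l : ℕ) ≠ (b.2 l : ℕ)) → ¬ sameL l a b := by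
    intro a b h1 h2
    exact h1 (by rw [h2.2])
  rcases hP with hP | hP
  · -- th = 0, lane 0 or 2, bit false
    have hth : th c l = 0 ∧ ((c.2 l : ℕ) = 0 ∨ (c.2 l : ℕ) = 2) := by
      rcases hj3 with h3 | h3 | h3
      · have := hq.h0 h3
        exact ⟨by omega, Or.inl h3⟩
      · have := hq.h1 h3
        exfalso; omega
      · have h4 := hq.h2 h3
        refine ⟨by omega, Or.inr ?_⟩
        by_contra h5
        have h6 : qj (c.2 l) * Ln n l = 0 := by omega
        have h7 : qj (c.2 l) = 0 := by
          rcases mul_eq_zero.1 h6 with h7 | h7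
          · exact h7
          · omega
        unfold qj at h7
        split_ifs at h7 <;> omega
    obtain ⟨hth, hj⟩ := hth
    have hb0 : c.1 l = false := by
      have := hbd.2.2
      rw [hth] at this
      cases h1 : c.1 l
      · rfl
      · rw [h1] at this; simp at this
    have ha : act c l = true := by
      cases h1 : act c l
      · have := (th_act c l).2 h1; omega
      · rfl
    have ha' : act c' l = true := by
      cases h1 : act c' l
      · have := (th_act c' l).2 h1
        rw [← hs.1] at this; omega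
      · rfl
    have l1 := u_lane_true c l ha
    have l2 := u_lane_true c' l ha'
    rw [← hbit, ← hlane] at l2
    rw [hb0] at l1 l2
    refine ⟨hne ?_, hne ?_, hne ?_⟩
    · rw [l1]
      rcases hj with h1 | h1 <;> rw [h1] <;> cases c.1 (l + 1) <;> simp [tj]
    · rw [l2, ← hlane]
      rcases hj with h1 | h1 <;> rw [h1] <;> cases c'.1 (l + 1) <;> simp [tj]
    · rw [l1, l2]
      rcases hj with h1 | h1 <;> rw [h1] <;> cases h3 : c.1 (l + 1) <;>
        cases h4 : c'.1 (l + 1) <;> rw [h3, h4] at hb <;> simp at hb <;> simp [tj]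
  · have hth : th c l = Ln n l - 1 ∧ (c.2 l : ℕ) = 1 := by
      rcases hj3 with h3 | h3 | h3
      · have := hq.h0 h3
        exfalso; omega
      · have := hq.h1 h3
        exact ⟨by omega, h3⟩
      · have := hq.h2 h3
        exfalso; omega
    obtain ⟨hth, hj⟩ := hth
    have hb0 : c.1 l = true := by
      have h1 := hbd.2.2
      have h2 := Ln_even n l
      rw [hth] at h1
      cases h3 : c.1 l
      · rw [h3] at h1; simp at h1; omega
      · rfl
    have ha : act c l = true := by
      cases h1 : act c l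
      · have := (th_act c l).2 h1; omega
      · rfl
    have ha' : act c' l = true := by
      cases h1 : act c' l
      · have := (th_act c' l).2 h1
        rw [← hs.1] at this; omega
      · rfl
    have l1 := u_lane_true c l ha
    have l2 := u_lane_true c' l ha'
    rw [← hbit, ← hlane] at l2
    rw [hb0, hj] at l1 l2
    refine ⟨hne ?_, hne ?_, hne ?_⟩
    · rw [l1, hj]
      cases c.1 (l + 1) <;> simp [tj]
    · rw [l2, ← hlane, hj]
      cases c'.1 (l + 1) <;> simp [tj]
    · rw [l1, l2]
      cases h3 : c.1 (l + 1) <;>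
        cases h4 : c'.1 (l + 1) <;> rw [h3, h4] at hb <;> simp at hb <;> simp [tj]

theorem merged.sameL {l : ℕ} (hL : LConst n V l) {c c' : Code n} (h : merged n V c c') :
    sameL l c c' := by
  obtain ⟨i, hi, h1, h2⟩ := h
  exact hL i hi c c' h1 h2

/-- lanes determine the next parity -/
theorem pc_of_lconst (hV : Cov n V) {l : ℕ} (hL : LConst n V l) : PC n V (l + 1) := by
  have key : ∀ (k : ℕ) (c c' : Code n), merged n V c c' → dd (P c l) = k →
      c.1 (l + 1) = c'.1 (l + 1) := by
    intro k
    induction k with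
    | zero =>
      intro c c' hm hd
      by_contra hne
      obtain ⟨h1, h2, h3⟩ := centre c c' l (by simpa using hd) (hm.sameL hL) hne
      exact h3 ((slide_u hV hL hm h1 h2).sameL hL)
    | succ k ih =>
      intro c c' hm hd
      have hs := hm.sameL hL
      have hPe := hs.P_eq
      have hbe := bit_of_P hPe
      have hP : 0 < P c l ∨ P c l < -1 := by
        unfold dd at hd; push_cast at hd; split_ifs at hd <;> omega
      by_cases hcase : (0 < P c l ∧ c.1 l = true) ∨ (P c l < -1 ∧ c.1 l = false)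
      · obtain ⟨a1, a2, a3⟩ := move_v c l hcase
        rw [hPe, hbe] at hcase
        obtain ⟨b1, b2, b3⟩ := move_v c' l hcase
        have := ih (v c) (v c') (slide_v hV hL hm (not_sameL_of_P a2) (not_sameL_of_P b2))
          (by push_cast at hd; omega)
        rw [a3, b3] at this
        exact Bool.not_inj this
      · have hcase' : (0 < P c l ∧ c.1 l = false) ∨ (P c l < -1 ∧ c.1 l = true) := by
          cases hb : c.1 l <;> rw [hb] at hcase <;> simp at hcase ⊢ <;> omega
        obtain ⟨a1, a2, a3⟩ := move_u c l hcase'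
        rw [hPe, hbe] at hcase'
        obtain ⟨b1, b2, b3⟩ := move_u c' l hcase'
        have := ih (u c) (u c') (slide_u hV hL hm (not_sameL_of_P a2) (not_sameL_of_P b2))
          (by push_cast at hd; omega)
        rw [a3, b3] at this
        exact Bool.not_inj this
  intro i hi c c' h1 h2
  have hd : 0 ≤ dd (P c l) := by unfold dd; split_ifs <;> omega
  exact key (dd (P c l)).toNat c c' ⟨i, hi, h1, h2⟩ (Int.toNat_of_nonneg hd).symm

/-- **Resolution.** -/
theorem main_res (V : ℕ → ℕ → Set (ℝ × ℝ)) (hC : ∀ k, Cov n (V k))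
    (hR : ∀ k, Ref n (V (k + 1)) (V k)) (l : ℕ) : LConst n (V (l + 1)) l := by
  have key : ∀ l, PC n (V l) l := by
    intro l
    induction l with
    | zero => exact (hC 0).pc_zero
    | succ l ih =>
      exact pc_of_lconst (hC (l + 1)) (lconst_of_pconst (hR l) (hC (l + 1)) ((hC l).pconst ih))
  exact lconst_of_pconst (hR l) (hC (l + 1)) ((hC l).pconst (key l))

/-- **Counting.** -/
theorem count (hV : Cov n V) {l : ℕ} (hL : LConst n V l) (m : ℕ)
    (hm : ∀ i, m ≤ i → V i = ∅) : n l + 1 ≤ m := by
  obtain ⟨c, hc⟩ : ∃ c : Fin (n l + 3) → Code n, ∀ j, (c j).2 l = j := by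
    refine ⟨fun j => (fun _ => true, Function.update (fun _ => 0) l j), fun j => ?_⟩
    simp
  have hidx : ∀ j, ∃ i : Fin m, ((x (c j), 1 / 2) : ℝ × ℝ) ∈ V i := by
    intro j
    obtain ⟨i, hi⟩ := hV.cov _ (win_mem (c j) (by norm_num : (0 : ℝ) ≤ 1 / 2) (by norm_num))
    have him : i < m := by
      by_contra hcon
      rw [hm i (not_lt.1 hcon)] at hi
      exact hi
    exact ⟨⟨i, him⟩, hi⟩
  choose f hf using hidx
  have hinj : Function.Injective f := by
    intro j j' h
    obtain ⟨h1, h2⟩ := half_sig (hf j)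
    obtain ⟨h3, h4⟩ := half_sig (hf j')
    rw [← h] at h4
    have := (hL _ h1 _ _ h2 h4).2
    rwa [hc, hc] at this
  have := Fintype.card_le_of_injective f hinj
  simp only [Fintype.card_fin] at this
  omega

end Pool.Agent.H.MP_82e23a_gt
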