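import Pool.Agent.H.MP_82e23a_gt.Pos

set_option autoImplicit false

/-! The upper involution is non-crossing in the order of the real line. -/

namespace Pool.Agent.H.MP_82e23a_gt

variable {n : ℕ → ℕ}

theorem dig_v (c : Code n) (l : ℕ) : dig (v c) l = 1 - dig c l := by
  cases l with
  | zero => simp only [dig, v_bit]; cases c.1 0 <;> simp
  | succ l => simp only [dig, v_bit, v_lane]; cases c.1 l <;> cases c.1 (l + 1) <;> simp <;> ring

theorem v_anti {c c' : Code n} (h : x c < x c') : x (v c') < x (v c) := by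
  obtain ⟨l, h1, h2⟩ := lt_dig h
  refine x_lt (v c') (v c) l (fun i hi => ?_) ?_
  · rw [dig_v, dig_v, h1 i hi]
  · rw [dig_v, dig_v]; omega

theorem nc_v {c c' : Code n} (h1 : x c < x c') (h2 : x c' < x (v c)) :
    x c < x (v c') ∧ x (v c') < x (v c) := by
  refine ⟨?_, v_anti h1⟩
  have := v_anti h2
  rwa [v_v] at this

theorem v_ne (c : Code n) : v c ≠ c := by
  intro h
  have : (v c).1 0 = c.1 0 := by rw [h]
  simp at this

theorem act_data {c : Code n} {m : ℕ} (h : act c m = true) :
    ∀ i < m, c.1 i = true ∧ (c.2 i : ℕ) = n i + 2 := by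
  intro i hi
  exact ((act_succ c i).1 (act_le c hi h)).2

theorem act_pre_eq {c c' : Code n} {l : ℕ} (h : Pre l c c') : ∀ i ≤ l, act c i = act c' i := by
  intro i
  induction i with
  | zero => intro _; rfl
  | succ i ih =>
    intro hi
    simp only [act]
    rw [ih (by omega), h.1 i (by omega), h.2 i (by omega)]

/-- digits below `m` agree for two codes active at `m`; at `m` they differ by the bit. -/
theorem act_dig {c c' : Code n} {m : ℕ} (h : act c m = true) (h' : act c' m = true) :
    (∀ i < m, dig c i = dig c' i) ∧ dig c m - bv (c.1 m) = dig c' m - bv (c'.1 m) := by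
  have e := act_data h
  have e' := act_data h'
  constructor
  · intro i hi
    cases i with
    | zero => simp only [dig]; rw [(e 0 hi).1, (e' 0 hi).1]
    | succ i =>
      simp only [dig]
      rw [(e i (by omega)).1, (e' i (by omega)).1, (e i (by omega)).2, (e' i (by omega)).2,
        (e (i + 1) hi).1, (e' (i + 1) hi).1]
  · cases m with
    | zero => simp only [dig]; ring
    | succ m =>
      simp only [dig]
      rw [(e m (by omega)).1, (e' m (by omega)).1, (e m (by omega)).2, (e' m (by omega)).2]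
      ring

theorem mono_act {c c' : Code n} (m : ℕ) (h : act c m = true) (hx : x c < x c') :
    act c' m = true := by
  induction m with
  | zero => rfl
  | succ m ih =>
    obtain ⟨a1, a2, a3⟩ := (act_succ c m).1 h
    have a' := ih a1
    obtain ⟨d1, d2⟩ := act_dig a1 a'
    have hb : c'.1 m = true := by
      cases hb : c'.1 m with
      | true => rfl
      | false =>
        rw [a2, hb] at d2
        simp at d2
        exact absurd hx (not_lt.2 (x_lt c' c m (fun i hi => (d1 i hi).symm) (by omega)).le)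
    refine (act_succ c' m).2 ⟨a', hb, ?_⟩
    by_contra hne
    have hlt : (c'.2 m : ℕ) < n m + 2 := by
      have := (c'.2 m).2
      omega
    rw [a2, hb] at d2
    refine absurd hx (not_lt.2 (x_lt c' c (m + 1) (fun i hi => ?_) ?_).le)
    · rcases Nat.lt_or_ge i m with h1 | h1
      · exact (d1 i h1).symm
      · have : i = m := by omega
        subst this; omega
    · simp only [dig]
      rw [a2, hb, a3]
      have b1 := bv_bd (c.1 (m + 1))
      have b2 := bv_bd (c'.1 (m + 1))
      simp only [if_true]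
      have : ((c'.2 m : ℕ) : ℤ) + 1 ≤ ((n m + 2 : ℕ) : ℤ) := by exact_mod_cast hlt
      omega

/-- the class of a code at level `m` -/
def Kv (c : Code n) (m : ℕ) : ℤ :=
  if c.1 m then 2 * ((c.2 m : ℕ) : ℤ) + bv (c.1 (m + 1)) + 2
  else -2 * ((c.2 m : ℕ) : ℤ) + bv (c.1 (m + 1))

theorem Kv_lt {c c' : Code n} {m : ℕ} (h : act c m = true) (h' : act c' m = true)
    (hK : Kv c m < Kv c' m) : x c < x c' := by
  obtain ⟨d1, d2⟩ := act_dig h h'
  have b1 := bv_bd (c.1 (m + 1))
  have b2 := bv_bd (c'.1 (m + 1))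
  have n1 : (0 : ℤ) ≤ ((c.2 m : ℕ) : ℤ) := Int.natCast_nonneg _
  have n2 : (0 : ℤ) ≤ ((c'.2 m : ℕ) : ℤ) := Int.natCast_nonneg _
  unfold Kv at hK
  cases e1 : c.1 m <;> cases e2 : c'.1 m <;> rw [e1, e2] at hK d2 <;> simp at hK d2
  · refine x_lt c c' (m + 1) (fun i hi => ?_) ?_
    · rcases Nat.lt_or_ge i m with h1 | h1
      · exact d1 i h1
      · have : i = m := by omega
        subst this; exact d2
    · simp only [dig]; rw [e1, e2]; simp; omega
  · exact x_lt c c' m d1 (by omega)
  · omega
  · refine x_lt c c' (m + 1) (fun i hi => ?_) ?_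
    · rcases Nat.lt_or_ge i m with h1 | h1
      · exact d1 i h1
      · have : i = m := by omega
        subst this; omega
    · simp only [dig]; rw [e1, e2]; simp; omega

theorem Kv_le {c c' : Code n} {m : ℕ} (h : act c m = true) (h' : act c' m = true)
    (hx : x c < x c') : Kv c m ≤ Kv c' m := by
  by_contra hcon
  exact absurd hx (not_lt.2 (Kv_lt h' h (not_le.1 hcon)).le)

theorem Kv_eq {c c' : Code n} {m : ℕ} (h : act c m = true) (h' : act c' m = true)
    (hK : Kv c m = Kv c' m) : Pre (m + 1) c c' := by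
  have b1 := bv_bd (c.1 (m + 1))
  have b2 := bv_bd (c'.1 (m + 1))
  have n1 : (0 : ℤ) ≤ ((c.2 m : ℕ) : ℤ) := Int.natCast_nonneg _
  have n2 : (0 : ℤ) ≤ ((c'.2 m : ℕ) : ℤ) := Int.natCast_nonneg _
  have e := act_data h
  have e' := act_data h'
  have key : c.1 m = c'.1 m ∧ (c.2 m : ℕ) = (c'.2 m : ℕ) ∧ c.1 (m + 1) = c'.1 (m + 1) := by
    unfold Kv at hK
    cases e1 : c.1 m <;> cases e2 : c'.1 m <;> cases e3 : c.1 (m + 1) <;>
      cases e4 : c'.1 (m + 1) <;> rw [e1, e2, e3, e4] at hK <;> simp at hK ⊢ <;> omega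
  refine ⟨fun i hi => ?_, fun i hi => ?_⟩
  · rcases Nat.lt_or_ge i m with h1 | h1
    · rw [(e i h1).1, (e' i h1).1]
    · rcases Nat.lt_or_ge i (m + 1) with h2 | h2
      · have : i = m := by omega
        subst this; exact key.1
      · have : i = m + 1 := by omega
        subst this; exact key.2.2
  · rcases Nat.lt_or_ge i m with h1 | h1
    · exact Fin.ext (by rw [(e i h1).2, (e' i h1).2])
    · have : i = m := by omega
      subst this; exact Fin.ext key.2.1

/-- the reflection of classes -/
def rho (K : ℤ) : ℤ := if K ≤ -4 ∨ 5 ≤ K then 1 - K else if K ≤ 0 then -3 - K else 5 - K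

theorem Kv_u {c : Code n} {m : ℕ} (h : act c m = true) (h' : act c (m + 1) = false) :
    Kv (u c) m = rho (Kv c m) := by
  have hne : ¬ (c.1 m = true ∧ (c.2 m : ℕ) = n m + 2) := fun hh => by
    rw [(act_succ c m).2 ⟨h, hh⟩] at h'; exact absurd h' (by simp)
  have hj := (c.2 m).2
  unfold Kv
  rw [u_bit_true c m h, u_lane_true c m h, u_bit_false c (m + 1) h']
  generalize (c.2 m : ℕ) = j at *
  generalize c.1 (m + 1) = b' at *
  generalize n m = k at *
  cases hb : c.1 m
  · rcases (by omega : j = 0 ∨ j = 1 ∨ j = 2 ∨ 3 ≤ j) with rfl | rfl | rfl | hj3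
    · cases b' <;> simp [tb, tj, rho]
    · cases b' <;> simp [tb, tj, rho]
    · cases b' <;> simp [tb, tj, rho]
    · have e1 : tb k false j b' = true := by simp only [tb]; rw [if_pos hj3]
      have e2 : tj k false j b' = j - 1 := by simp only [tj]; rw [if_pos hj3]
      rw [e1, e2]
      have e3 : ((j - 1 : ℕ) : ℤ) = (j : ℤ) - 1 := by omega
      rw [e3]
      unfold rho
      cases b' <;> simp <;> split_ifs <;> omega
  · rcases (by omega : j = 0 ∨ j = 1 ∨ 2 ≤ j) with rfl | rfl | hj3
    · cases b' <;> simp [tb, tj, rho]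
    · cases b' <;> simp [tb, tj, rho]
    · have hjt : ¬ (j = k + 2) := fun e => hne ⟨hb, e⟩
      have e1 : tb k true j b' = false := by simp [tb]; omega
      have e2 : tj k true j b' = j + 1 := by simp only [tj]; rw [if_neg hjt, if_pos hj3]
      rw [e1, e2]
      unfold rho
      cases b' <;> simp <;> split_ifs <;> omega

theorem pre_u {c c' : Code n} {m : ℕ} (h : Pre (m + 1) c c') (h' : act c (m + 1) = false) :
    Pre (m + 1) (u c) (u c') := by
  have ha := act_pre_eq h
  refine ⟨fun i hi => ?_, fun i hi => ?_⟩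
  · rcases Nat.lt_or_ge i (m + 1) with h1 | h1
    · rw [u_bit, u_bit, ha i hi, h.1 i hi, h.2 i h1, h.1 (i + 1) (by omega)]
    · have : i = m + 1 := by omega
      subst this
      rw [u_bit_false c _ h', u_bit_false c' _ (by rw [← ha _ le_rfl]; exact h'), h.1 _ le_rfl]
  · apply Fin.ext
    rw [u_lane, u_lane, ha i hi.le, h.1 i hi.le, h.2 i hi, h.1 (i + 1) (by omega)]

theorem dig_u {c : Code n} {m : ℕ} (h' : act c (m + 1) = false) (l : ℕ) (hl : m + 2 ≤ l) :
    dig (u c) l = 1 - dig c l := by
  obtain ⟨k, rfl⟩ : ∃ k, l = k + 1 := ⟨l - 1, by omega⟩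
  have ha : ∀ i, m + 1 ≤ i → act c i = false := by
    intro i hi
    cases hh : act c i with
    | false => rfl
    | true => rw [act_le c hi hh] at h'; exact absurd h' (by simp)
  simp only [dig]
  rw [u_bit_false c k (ha k (by omega)), u_bit_false c (k + 1) (ha _ (by omega)),
    u_lane_false c k (ha k (by omega))]
  cases c.1 k <;> cases c.1 (k + 1) <;> simp <;> ring

/-- the group of a class -/
def grp (K : ℤ) : ℤ := if K ≤ -4 ∨ 5 ≤ K then 0 else if K ≤ 0 then 1 else 2

theorem or_u {c c' : Code n} {m : ℕ} (h : act c m = true) (h' : act c' m = true)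
    (k : act c (m + 1) = false) (k' : act c' (m + 1) = false)
    (hg : grp (Kv c m) = grp (Kv c' m)) (hx : x c < x c') : x (u c') < x (u c) := by
  rcases lt_or_eq_of_le (Kv_le h h' hx) with hlt | heq
  · refine Kv_lt (m := m) (by rw [act_u]; exact h') (by rw [act_u]; exact h) ?_
    rw [Kv_u h k, Kv_u h' k']
    unfold grp at hg
    unfold rho
    split_ifs at hg ⊢ <;> omega
  · have hp := Kv_eq h h' heq
    have hpu := pre_u hp k
    obtain ⟨l, h1, h2⟩ := lt_dig hx
    have hl : m + 2 ≤ l := by
      by_contra hcon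
      exact absurd (dig_of_pre hp l (by omega)) h2.ne
    refine x_lt (u c') (u c) l (fun i hi => ?_) ?_
    · rcases Nat.lt_or_ge i (m + 2) with h3 | h3
      · exact (dig_of_pre hpu i (by omega)).symm
      · rw [dig_u k i h3, dig_u k' i h3, h1 i hi]
    · rw [dig_u k l hl, dig_u k' l hl]; omega

theorem u_eq_of_act {c : Code n} (h : ∀ m, act c m = true) : u c = c := by
  have e : ∀ i, c.1 i = true ∧ (c.2 i : ℕ) = n i + 2 := fun i => act_data (h (i + 1)) i (by omega)
  ext i
  · rw [u_bit_true c i (h i), (e i).1, (e i).2]; simp [tb]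
  · rw [u_lane_true c i (h i), (e i).1, (e i).2]; simp [tj]

theorem nc_u {c c' : Code n} (h1 : x c < x c') (h2 : x c' < x (u c)) :
    x c < x (u c') ∧ x (u c') < x (u c) := by
  have hex : ∃ m, act c m = false := by
    by_contra hcon
    push Not at hcon
    have : u c = c := u_eq_of_act (fun m => by simpa using hcon m)
    rw [this] at h2
    exact lt_asymm h1 h2
  obtain ⟨m, hm, hm'⟩ : ∃ m, act c m = true ∧ act c (m + 1) = false := by
    classical
    have hs := Nat.find_spec hex
    have h0 : Nat.find hex ≠ 0 := fun e => by rw [e] at hs; simp [act] at hs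
    obtain ⟨k, hk⟩ := Nat.exists_eq_succ_of_ne_zero h0
    refine ⟨k, ?_, by rw [hk] at hs; exact hs⟩
    have := Nat.find_min hex (m := k) (by omega)
    simpa using this
  have hc' : act c' m = true := mono_act m hm h1
  have hc'' : act c' (m + 1) = false := by
    cases hh : act c' (m + 1) with
    | false => rfl
    | true =>
      have := mono_act (m + 1) hh h2
      rw [act_u, hm'] at this
      exact absurd this (by simp)
  have hum : act (u c) m = true := by rw [act_u]; exact hm
  have hum' : act (u c) (m + 1) = false := by rw [act_u]; exact hm'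
  have hcum : act (u c') m = true := by rw [act_u]; exact hc'
  have l1 := Kv_le hm hc' h1
  have l2 := Kv_le hc' hum h2
  rw [Kv_u hm hm'] at l2
  by_cases hg : grp (Kv c m) = grp (Kv c' m)
  · refine ⟨?_, or_u hm hc' hm' hc'' hg h1⟩
    have hg2 : grp (Kv c' m) = grp (Kv (u c) m) := by
      rw [← hg, Kv_u hm hm']
      unfold grp rho
      split_ifs <;> omega
    have := or_u hc' hum hc'' hum' hg2 h2
    rwa [u_u] at this
  · have e1 := Kv_u hm hm'
    have e2 := Kv_u hc' hc''
    constructor
    · refine Kv_lt hm hcum ?_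
      rw [e2]
      unfold grp at hg
      unfold rho at l2 ⊢
      split_ifs at hg l2 ⊢ <;> omega
    · refine Kv_lt hcum hum ?_
      rw [e2, e1]
      unfold grp at hg
      unfold rho at l2 ⊢
      split_ifs at hg l2 ⊢ <;> omega

end Pool.Agent.H.MP_82e23a_gt
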