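import Pool.Agent.H.MP_82e23a_gt.Steps

set_option autoImplicit false

/-! Connectivity of the code dynamics, and the real coordinate of a code. -/

namespace Pool.Agent.H.MP_82e23a_gt

variable {n : ℕ → ℕ}

theorem conn {α : Type*} (k : Code n → α) (hu : ∀ c, k (u c) = k c) (hv : ∀ c, k (v c) = k c)
    (m : ℕ) (hp : ∀ c c', Pre m c c' → k c = k c') (c c' : Code n) : k c = k c' := by
  have key : ∀ (t : ℕ) (c : Code n), th c m = t → ∃ c0, th c0 m = 0 ∧ k c0 = k c := by
    intro t
    induction t with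
    | zero => exact fun c hc => ⟨c, by simpa using hc, rfl⟩
    | succ t ih =>
      intro c hc
      cases hb : c.1 m with
      | true =>
        obtain ⟨c0, h1, h2⟩ := ih (v c) (by rw [th_v, hc, hb]; simp)
        exact ⟨c0, h1, h2.trans (hv c)⟩
      | false =>
        have ha : act c m = false := by
          cases ha : act c m with
          | false => rfl
          | true =>
            have := (th_act c m).1 ha
            rw [hb, hc] at this
            simp at this
            omega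
        obtain ⟨c0, h1, h2⟩ := ih (u c) (by rw [th_u c m ha, hc, hb]; simp)
        exact ⟨c0, h1, h2.trans (hu c)⟩
  have h0 : ∀ c : Code n, th c m = ((th c m).toNat : ℤ) := fun c =>
    (Int.toNat_of_nonneg (th_bd c m).1).symm
  obtain ⟨a, a1, a2⟩ := key _ c (h0 c)
  obtain ⟨b, b1, b2⟩ := key _ c' (h0 c')
  rw [← a2, ← b2]
  exact hp a b (pre_of_th a b m (by rw [a1, b1]))

/-- digits -/
def dig (c : Code n) : ℕ → ℤ
  | 0 => bv (c.1 0)
  | (l + 1) => 2 * (if c.1 l then ((c.2 l : ℕ) : ℤ) else -((c.2 l : ℕ) : ℤ)) + bv (c.1 (l + 1))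

/-- weights -/
noncomputable def w (n : ℕ → ℕ) : ℕ → ℝ
  | 0 => 1
  | (l + 1) => w n l / (8 * (2 * n l + 5))

theorem w_pos (n : ℕ → ℕ) (l : ℕ) : 0 < w n l := by
  induction l with
  | zero => simp [w]
  | succ l ih => simp only [w]; positivity

theorem w_succ_le (n : ℕ → ℕ) (l : ℕ) : w n (l + 1) ≤ w n l * (1 / 8) := by
  have h := w_pos n l
  simp only [w]
  rw [div_le_iff₀ (by positivity)]
  have : (0 : ℝ) ≤ n l := Nat.cast_nonneg _
  nlinarith

theorem w_add_le (n : ℕ → ℕ) (l i : ℕ) : w n (l + i) ≤ w n l * (1 / 8) ^ i := by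
  induction i with
  | zero => simp
  | succ i ih =>
    have := w_succ_le n (l + i)
    rw [← add_assoc, pow_succ]
    nlinarith

theorem bv_bd (b : Bool) : 0 ≤ bv b ∧ bv b ≤ 1 := by cases b <;> simp

theorem dig_bd (c : Code n) (l : ℕ) : |dig c (l + 1)| ≤ 2 * (n l : ℤ) + 5 := by
  have h1 : ((c.2 l : ℕ) : ℤ) ≤ n l + 2 := by
    have := (c.2 l).2
    exact_mod_cast (by omega : (c.2 l : ℕ) ≤ n l + 2)
  have h2 := bv_bd (c.1 (l + 1))
  have h3 : (0 : ℤ) ≤ ((c.2 l : ℕ) : ℤ) := Int.natCast_nonneg _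
  rw [abs_le]
  simp only [dig]
  split_ifs <;> constructor <;> omega

theorem wdig_bd (c : Code n) (l : ℕ) : |w n (l + 1) * (dig c (l + 1) : ℝ)| ≤ w n l * (1 / 8) := by
  have h := dig_bd c l
  have h' : |(dig c (l + 1) : ℝ)| ≤ 2 * (n l : ℝ) + 5 := by exact_mod_cast h
  have hw := w_pos n l
  have hw' := w_pos n (l + 1)
  rw [abs_mul, abs_of_pos hw']
  calc w n (l + 1) * |(dig c (l + 1) : ℝ)| ≤ w n (l + 1) * (2 * (n l : ℝ) + 5) :=
        mul_le_mul_of_nonneg_left h' hw'.le
    _ = w n l * (1 / 8) := by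
        simp only [w]
        have : (2 * (n l : ℝ) + 5) ≠ 0 := by positivity
        field_simp

/-- the real coordinate -/
noncomputable def x (c : Code n) : ℝ := ∑' l, w n l * (dig c l : ℝ)

theorem term_bd (c : Code n) (l : ℕ) : ‖w n l * (dig c l : ℝ)‖ ≤ (1 / 8 : ℝ) ^ l := by
  rw [Real.norm_eq_abs]
  cases l with
  | zero =>
    have := bv_bd (c.1 0)
    have h1 : (0 : ℝ) ≤ (bv (c.1 0) : ℝ) := by exact_mod_cast this.1
    have h2 : ((bv (c.1 0) : ℤ) : ℝ) ≤ 1 := by exact_mod_cast this.2
    simp only [w, dig, one_mul, pow_zero]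
    rw [abs_of_nonneg h1]; exact h2
  | succ l =>
    refine (wdig_bd c l).trans ?_
    have := w_add_le n 0 l
    simp only [zero_add, w, one_mul] at this
    rw [pow_succ]
    nlinarith

theorem summ (c : Code n) : Summable fun l => w n l * (dig c l : ℝ) :=
  Summable.of_norm_bounded (summable_geometric_of_lt_one (by norm_num) (by norm_num))
    (term_bd c)

/-- difference of the coordinates of two codes whose digits agree below `l`. -/
theorem x_diff (c c' : Code n) (l : ℕ) (h : ∀ i < l, dig c i = dig c' i) :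
    |x c' - x c - w n l * ((dig c' l : ℝ) - dig c l)| ≤ 2 / 7 * w n l := by
  have hs : Summable fun i => w n i * (dig c' i : ℝ) - w n i * (dig c i : ℝ) :=
    (summ c').sub (summ c)
  have e : x c' - x c = ∑' i, (w n i * (dig c' i : ℝ) - w n i * (dig c i : ℝ)) :=
    ((summ c').tsum_sub (summ c)).symm
  rw [e, ← hs.sum_add_tsum_nat_add (l + 1), Finset.sum_range_succ, Finset.sum_eq_zero]
  · have e2 : (0 + (w n l * (dig c' l : ℝ) - w n l * (dig c l : ℝ)) +
        ∑' i, (w n (i + (l + 1)) * (dig c' (i + (l + 1)) : ℝ) -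
          w n (i + (l + 1)) * (dig c (i + (l + 1)) : ℝ)) -
        w n l * ((dig c' l : ℝ) - dig c l)) =
        ∑' i, (w n (i + (l + 1)) * (dig c' (i + (l + 1)) : ℝ) -
          w n (i + (l + 1)) * (dig c (i + (l + 1)) : ℝ)) := by ring
    rw [e2, ← Real.norm_eq_abs]
    have hg : HasSum (fun i : ℕ => (w n l * (1 / 4)) * (1 / 8 : ℝ) ^ i)
        ((w n l * (1 / 4)) * (1 - 1 / 8)⁻¹) :=
      (hasSum_geometric_of_lt_one (by norm_num) (by norm_num)).mul_left _
    refine (tsum_of_norm_bounded hg fun i => ?_).trans (le_of_eq (by norm_num; ring))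
    rw [Real.norm_eq_abs]
    have h1 := wdig_bd c (l + i)
    have h2 := wdig_bd c' (l + i)
    have h3 := w_add_le n l i
    have e3 : i + (l + 1) = l + i + 1 := by ring
    rw [e3]
    rw [abs_le] at h1 h2 ⊢
    constructor <;> nlinarith [h1.1, h1.2, h2.1, h2.2]
  · intro i hi
    rw [h i (Finset.mem_range.1 hi)]; ring

theorem x_lt (c c' : Code n) (l : ℕ) (h : ∀ i < l, dig c i = dig c' i) (hl : dig c l < dig c' l) :
    x c < x c' := by
  have h1 := x_diff c c' l h
  have h2 : (1 : ℝ) ≤ (dig c' l : ℝ) - dig c l := by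
    have : (dig c l : ℝ) + 1 ≤ dig c' l := by exact_mod_cast hl
    linarith
  have hw := w_pos n l
  rw [abs_le] at h1
  nlinarith [h1.1]

/-- codes with the same digits up to level `l` are close. -/
theorem x_close (c c' : Code n) (l : ℕ) (h : ∀ i ≤ l, dig c i = dig c' i) :
    |x c' - x c| ≤ w n l := by
  have h1 := x_diff c c' l (fun i hi => h i hi.le)
  rw [h l le_rfl] at h1
  have hw := w_pos n l
  rw [abs_le] at h1 ⊢
  constructor <;> nlinarith [h1.1, h1.2]

theorem dig_of_pre {c c' : Code n} {l : ℕ} (h : Pre l c c') : ∀ i ≤ l, dig c i = dig c' i := by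
  intro i hi
  cases i with
  | zero => simp [dig, h.1 0 (Nat.zero_le _)]
  | succ i => simp only [dig]; rw [h.1 i (by omega), h.1 (i + 1) hi, h.2 i (by omega)]

theorem pre_of_dig {c c' : Code n} {l : ℕ} (h : ∀ i ≤ l, dig c i = dig c' i) : Pre l c c' := by
  induction l with
  | zero =>
    refine ⟨fun i hi => ?_, fun i hi => absurd hi (Nat.not_lt_zero _)⟩
    have : i = 0 := by omega
    subst this
    have := h 0 le_rfl
    simp only [dig] at this
    cases h1 : c.1 0 <;> cases h2 : c'.1 0 <;> simp [h1, h2] at this ⊢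
  | succ l ih =>
    obtain ⟨i1, i2⟩ := ih (fun i hi => h i (by omega))
    have hl := h (l + 1) le_rfl
    simp only [dig] at hl
    rw [i1 l le_rfl] at hl
    have hbits : c.1 (l + 1) = c'.1 (l + 1) ∧ ((c.2 l : ℕ)) = ((c'.2 l : ℕ)) := by
      have b1 := bv_bd (c.1 (l + 1))
      have b2 := bv_bd (c'.1 (l + 1))
      cases h1 : c.1 (l + 1) <;> cases h2 : c'.1 (l + 1) <;> rw [h1, h2] at hl <;>
        simp only [bv_true, bv_false] at hl <;> split_ifs at hl <;>
        first | (refine ⟨rfl, ?_⟩; omega) | (exfalso; omega)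
    refine ⟨fun i hi => ?_, fun i hi => ?_⟩
    · rcases Nat.lt_or_ge i (l + 1) with h1 | h1
      · exact i1 i (by omega)
      · have : i = l + 1 := by omega
        subst this; exact hbits.1
    · rcases Nat.lt_or_ge i l with h1 | h1
      · exact i2 i h1
      · have : i = l := by omega
        subst this; exact Fin.ext hbits.2

theorem code_ext_dig {c c' : Code n} (h : ∀ i, dig c i = dig c' i) : c = c' := by
  ext l
  · exact (pre_of_dig (l := l) (fun i _ => h i)).1 l le_rfl
  · exact congrArg _ ((pre_of_dig (l := l + 1) (fun i _ => h i)).2 l (Nat.lt_succ_self l))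

/-- the first differing digit -/
theorem first_diff {c c' : Code n} (h : c ≠ c') :
    ∃ l, (∀ i < l, dig c i = dig c' i) ∧ dig c l ≠ dig c' l := by
  classical
  have hex : ∃ l, dig c l ≠ dig c' l := by
    by_contra hcon
    push Not at hcon
    exact h (code_ext_dig hcon)
  refine ⟨Nat.find hex, fun i hi => ?_, Nat.find_spec hex⟩
  have := Nat.find_min hex hi
  push Not at this; exact this

theorem x_inj {c c' : Code n} (h : x c = x c') : c = c' := by
  by_contra hne
  obtain ⟨l, h1, h2⟩ := first_diff hne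
  rcases lt_or_gt_of_ne h2 with h3 | h3
  · exact absurd h (x_lt c c' l h1 h3).ne
  · exact absurd h (x_lt c' c l (fun i hi => (h1 i hi).symm) h3).ne'

theorem lt_dig {c c' : Code n} (h : x c < x c') :
    ∃ l, (∀ i < l, dig c i = dig c' i) ∧ dig c l < dig c' l := by
  have hne : c ≠ c' := fun e => by rw [e] at h; exact lt_irrefl _ h
  obtain ⟨l, h1, h2⟩ := first_diff hne
  refine ⟨l, h1, lt_of_le_of_ne ?_ h2⟩
  by_contra h3
  exact absurd h (not_lt.2 (x_lt c' c l (fun i hi => (h1 i hi).symm) (not_le.1 h3)).le)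

end Pool.Agent.H.MP_82e23a_gt
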