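import Pool.Agent.H.MP_82e23a_gt.Cont

set_option autoImplicit false

/-! Chain covers of the continuum: lifting along the chain. -/

namespace Pool.Agent.H.MP_82e23a_gt

open Set

variable {n : ℕ → ℕ}

/-- a chain cover of `K` with small links -/
structure Cov (n : ℕ → ℕ) (V : ℕ → Set (ℝ × ℝ)) : Prop where
  op : ∀ i, IsOpen (V i)
  cov : ∀ p ∈ K n, ∃ i, p ∈ V i
  far : ∀ p ∈ K n, ∀ i j, p ∈ V i → p ∈ V j → j ≤ i + 1
  small : ∀ i, ∀ p ∈ K n, ∀ q ∈ K n, p ∈ V i → q ∈ V i → dist p q < 1 / 8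

variable {V : ℕ → Set (ℝ × ℝ)}

theorem Cov.step (hV : Cov n V) {A : Set (ℝ × ℝ)} (hA : A ⊆ K n) (hp : IsPreconnected A)
    {i j k : ℕ} (hi : (A ∩ V i).Nonempty) (hj : (A ∩ V j).Nonempty) (h1 : i ≤ k) (h2 : k < j) :
    (A ∩ (V k ∩ V (k + 1))).Nonempty := by
  obtain ⟨p, pA, ⟨p1, p2⟩⟩ := hp (⋃ a ≤ k, V a) (⋃ b > k, V b)
    (isOpen_biUnion fun a _ => hV.op a) (isOpen_biUnion fun a _ => hV.op a)
    (fun p hp => by
      obtain ⟨i, hi⟩ := hV.cov p (hA hp)
      rcases le_or_gt i k with h | h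
      · exact Or.inl (mem_iUnion₂.2 ⟨i, h, hi⟩)
      · exact Or.inr (mem_iUnion₂.2 ⟨i, h, hi⟩))
    (by
      obtain ⟨p, p1, p2⟩ := hi
      exact ⟨p, p1, mem_iUnion₂.2 ⟨i, h1, p2⟩⟩)
    (by
      obtain ⟨p, p1, p2⟩ := hj
      exact ⟨p, p1, mem_iUnion₂.2 ⟨j, h2, p2⟩⟩)
  obtain ⟨a, ha, q1⟩ := mem_iUnion₂.1 p1
  obtain ⟨b, hb, q2⟩ := mem_iUnion₂.1 p2
  have h3 := hV.far p (hA pA) a b q1 q2
  have ea : a = k := by omega
  have eb : b = k + 1 := by omega
  rw [ea] at q1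
  rw [eb] at q2
  exact ⟨p, pA, q1, q2⟩

theorem Cov.mid (hV : Cov n V) {A : Set (ℝ × ℝ)} (hA : A ⊆ K n) (hp : IsPreconnected A)
    {i j k : ℕ} (hi : (A ∩ V i).Nonempty) (hj : (A ∩ V j).Nonempty) (h1 : i ≤ k) (h2 : k ≤ j) :
    (A ∩ V k).Nonempty := by
  rcases lt_or_eq_of_le h2 with h | h
  · obtain ⟨p, pA, p1, _⟩ := hV.step hA hp hi hj h1 h
    exact ⟨p, pA, p1⟩
  · rw [h]; exact hj

/-- links meeting the middle of the window -/
def sig (n : ℕ → ℕ) (V : ℕ → Set (ℝ × ℝ)) (i : ℕ) : Prop :=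
  ∃ p ∈ K n, p ∈ V i ∧ 1 / 4 ≤ p.2 ∧ p.2 ≤ 3 / 4

/-- a link contains a window point of the strand of `c` -/
def mem (V : ℕ → Set (ℝ × ℝ)) (c : Code n) (i : ℕ) : Prop :=
  ∃ s : ℝ, 0 ≤ s ∧ s ≤ 1 ∧ ((x c, s) : ℝ × ℝ) ∈ V i

def PC (n : ℕ → ℕ) (V : ℕ → Set (ℝ × ℝ)) (l : ℕ) : Prop :=
  ∀ i, sig n V i → ∀ c c' : Code n, mem V c i → mem V c' i → c.1 l = c'.1 l

def PConst (n : ℕ → ℕ) (V : ℕ → Set (ℝ × ℝ)) (l : ℕ) : Prop :=
  ∀ i, sig n V i → ∀ c c' : Code n, mem V c i → mem V c' i → P c l = P c' l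

def sameL (l : ℕ) (c c' : Code n) : Prop := th c l = th c' l ∧ c.2 l = c'.2 l

def LConst (n : ℕ → ℕ) (V : ℕ → Set (ℝ × ℝ)) (l : ℕ) : Prop :=
  ∀ i, sig n V i → ∀ c c' : Code n, mem V c i → mem V c' i → sameL l c c'

theorem dist_snd {p q : ℝ × ℝ} {r : ℝ} (h : dist p q < r) : |p.2 - q.2| < r := by
  rw [Prod.dist_eq] at h
  have := (le_max_right (dist p.1 q.1) (dist p.2 q.2)).trans_lt h
  rwa [Real.dist_eq] at this

theorem dist_fst {p q : ℝ × ℝ} {r : ℝ} (h : dist p q < r) : |p.1 - q.1| < r := by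
  rw [Prod.dist_eq] at h
  have := (le_max_left (dist p.1 q.1) (dist p.2 q.2)).trans_lt h
  rwa [Real.dist_eq] at this

theorem Cov.sig_bd (hV : Cov n V) {i : ℕ} (h : sig n V i) {p : ℝ × ℝ} (hp : p ∈ K n)
    (hi : p ∈ V i) : 1 / 8 < p.2 ∧ p.2 < 7 / 8 := by
  obtain ⟨q, qK, qi, q1, q2⟩ := h
  have := dist_snd (hV.small i p hp q qK hi qi)
  rw [abs_lt] at this
  constructor <;> linarith

/-- a point of `K` in a middle link lies on a strand that is a member of the link -/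
theorem Cov.sig_mem (hV : Cov n V) {i : ℕ} (h : sig n V i) {p : ℝ × ℝ} (hp : p ∈ K n)
    (hi : p ∈ V i) : ∃ c : Code n, mem V c i ∧ p = (x c, p.2) := by
  obtain ⟨h1, h2⟩ := hV.sig_bd h hp hi
  obtain ⟨c, hc⟩ := win_of_mem hp (by linarith) (by linarith)
  refine ⟨c, ⟨p.2, by linarith, by linarith, ?_⟩, hc⟩
  rw [← hc]; exact hi

theorem Cov.pc_zero (hV : Cov n V) : PC n V 0 := by
  rintro i - c c' ⟨s, s0, s1, hs⟩ ⟨s', s0', s1', hs'⟩
  have h := dist_fst (hV.small i _ (win_mem c s0 s1) _ (win_mem c' s0' s1') hs hs')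
  simp only at h
  have h2 := x_diff c c' 0 (fun i hi => absurd hi (Nat.not_lt_zero _))
  simp only [w, dig, one_mul] at h2
  rw [abs_lt] at h
  rw [abs_le] at h2
  cases h3 : c.1 0 <;> cases h4 : c'.1 0 <;> rw [h3, h4] at h2 <;> simp at h2 ⊢ <;>
    (norm_num at h2; linarith)

section lift

open Classical in
/-- parity of a middle link -/
noncomputable def par (n : ℕ → ℕ) (V : ℕ → Set (ℝ × ℝ)) (l i : ℕ) : Bool :=
  decide (∃ c : Code n, mem V c i ∧ c.1 l = true)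

open Classical in
noncomputable def aval (n : ℕ → ℕ) (V : ℕ → Set (ℝ × ℝ)) (l i : ℕ) : ℤ :=
  if sig n V i then (2 - 2 * bv (par n V l i)) else 1

open Classical in
noncomputable def bval (n : ℕ → ℕ) (V : ℕ → Set (ℝ × ℝ)) (l i : ℕ) : ℤ :=
  if sig n V i then 2 * bv (par n V l i) else 1

def below (n : ℕ → ℕ) (V : ℕ → Set (ℝ × ℝ)) (i : ℕ) : Prop :=
  ¬ sig n V i ∧ ∃ p ∈ K n, p ∈ V i ∧ p.2 < 1 / 4

open Classical in
noncomputable def del (n : ℕ → ℕ) (V : ℕ → Set (ℝ × ℝ)) (l i : ℕ) : ℤ :=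
  if below n V i ∨ below n V (i + 1) then bval n V l (i + 1) - bval n V l i
  else aval n V l (i + 1) - aval n V l i

noncomputable def ta (n : ℕ → ℕ) (V : ℕ → Set (ℝ × ℝ)) (l : ℕ) : ℕ → ℤ
  | 0 => 0
  | (i + 1) => ta n V l i + del n V l i

theorem par_eq {l : ℕ} (h : PC n V l) {i : ℕ} (hs : sig n V i) {c : Code n} (hm : mem V c i) :
    par n V l i = c.1 l := by
  unfold par
  cases hc : c.1 l with
  | true => simp only [decide_eq_true_eq]; exact ⟨c, hm, hc⟩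
  | false =>
    simp only [decide_eq_false_iff_not]
    rintro ⟨c', h1, h2⟩
    have := h i hs c c' hm h1
    rw [hc, h2] at this
    exact absurd this (by simp)

theorem aval_eq {l : ℕ} (h : PC n V l) {i : ℕ} (hs : sig n V i) {c : Code n} (hm : mem V c i) :
    aval n V l i = 2 - 2 * bv (c.1 l) := by
  unfold aval; rw [if_pos hs, par_eq h hs hm]

theorem bval_eq {l : ℕ} (h : PC n V l) {i : ℕ} (hs : sig n V i) {c : Code n} (hm : mem V c i) :
    bval n V l i = 2 * bv (c.1 l) := by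
  unfold bval; rw [if_pos hs, par_eq h hs hm]

theorem not_below (hV : Cov n V) {i : ℕ} {p : ℝ × ℝ} (hp : p ∈ K n) (hi : p ∈ V i)
    (h : 1 / 2 ≤ p.2) : ¬ below n V i := by
  rintro ⟨-, q, qK, qi, hq⟩
  have := dist_snd (hV.small i p hp q qK hi qi)
  rw [abs_lt] at this
  linarith

theorem telescope (f g : ℕ → ℤ) (i j : ℕ) (hij : i ≤ j)
    (h : ∀ k, i ≤ k → k < j → f (k + 1) - f k = g (k + 1) - g k) : f j - f i = g j - g i := by
  induction j with
  | zero =>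
    have : i = 0 := by omega
    subst this; simp
  | succ j ih =>
    rcases Nat.lt_or_ge i (j + 1) with h1 | h1
    · have h2 := ih (by omega) (fun k a b => h k a (by omega))
      have h3 := h j (by omega) (by omega)
      omega
    · have : i = j + 1 := by omega
      subst this; simp

theorem walk_up (hV : Cov n V) (l : ℕ) {A : Set (ℝ × ℝ)} (hA : A ⊆ K n)
    (hp : IsPreconnected A) (hy : ∀ p ∈ A, 1 / 2 ≤ p.2) {i j : ℕ} (hi : (A ∩ V i).Nonempty)
    (hj : (A ∩ V j).Nonempty) : ta n V l j - ta n V l i = aval n V l j - aval n V l i := by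
  have aux : ∀ {i j : ℕ}, i ≤ j → (A ∩ V i).Nonempty → (A ∩ V j).Nonempty →
      ta n V l j - ta n V l i = aval n V l j - aval n V l i := by
    intro i j hij hi hj
    refine telescope _ _ i j hij fun k h1 h2 => ?_
    obtain ⟨p, pA, p1, p2⟩ := hV.step hA hp hi hj h1 h2
    have e : ta n V l (k + 1) = ta n V l k + del n V l k := rfl
    have e2 : del n V l k = aval n V l (k + 1) - aval n V l k := by
      unfold del
      rw [if_neg]
      rintro (h | h)
      · exact not_below hV (hA pA) p1 (hy p pA) h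
      · exact not_below hV (hA pA) p2 (hy p pA) h
    omega
  rcases le_total i j with h | h
  · exact aux h hi hj
  · have := aux h hj hi; omega

theorem sig_or_below {i : ℕ} {p : ℝ × ℝ} (hp : p ∈ K n) (hi : p ∈ V i)
    (h : p.2 ≤ 1 / 2) : sig n V i ∨ below n V i := by
  by_cases hs : sig n V i
  · exact Or.inl hs
  · right
    refine ⟨hs, p, hp, hi, ?_⟩
    by_contra hcon
    exact hs ⟨p, hp, hi, not_lt.1 hcon, by linarith⟩

theorem walk_down (hV : Cov n V) {l : ℕ} (hPC : PC n V l) {A : Set (ℝ × ℝ)} (hA : A ⊆ K n)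
    (hp : IsPreconnected A) (hy : ∀ p ∈ A, p.2 ≤ 1 / 2) {i j : ℕ} (hi : (A ∩ V i).Nonempty)
    (hj : (A ∩ V j).Nonempty) : ta n V l j - ta n V l i = bval n V l j - bval n V l i := by
  have aux : ∀ {i j : ℕ}, i ≤ j → (A ∩ V i).Nonempty → (A ∩ V j).Nonempty →
      ta n V l j - ta n V l i = bval n V l j - bval n V l i := by
    intro i j hij hi hj
    refine telescope _ _ i j hij fun k h1 h2 => ?_
    obtain ⟨p, pA, p1, p2⟩ := hV.step hA hp hi hj h1 h2
    have e : ta n V l (k + 1) = ta n V l k + del n V l k := rfl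
    have e2 : del n V l k = bval n V l (k + 1) - bval n V l k := by
      unfold del
      split_ifs with h
      · rfl
      · push Not at h
        rcases sig_or_below (hA pA) p1 (hy p pA) with s1 | s1
        · rcases sig_or_below (hA pA) p2 (hy p pA) with s2 | s2
          · obtain ⟨c, m1, hc⟩ := hV.sig_mem s1 (hA pA) p1
            have m2 : mem V c (k + 1) := by
              obtain ⟨b1, b2⟩ := hV.sig_bd s1 (hA pA) p1
              exact ⟨p.2, by linarith, by linarith, by rw [← hc]; exact p2⟩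
            rw [aval_eq hPC s1 m1, aval_eq hPC s2 m2, bval_eq hPC s1 m1, bval_eq hPC s2 m2]
            ring
          · exact absurd s2 h.2
        · exact absurd s1 h.1
    omega
  rcases le_total i j with h | h
  · exact aux h hi hj
  · have := aux h hj hi; omega

theorem half_sig {i : ℕ} {c : Code n} (h : ((x c, 1 / 2) : ℝ × ℝ) ∈ V i) :
    sig n V i ∧ mem V c i :=
  ⟨⟨_, win_mem c (by norm_num) (by norm_num), h, by norm_num, by norm_num⟩,
    ⟨1 / 2, by norm_num, by norm_num, h⟩⟩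

/-- the upper journey -/
def jup (c : Code n) (s : ℝ) : Set (ℝ × ℝ) := Phi c '' Icc s 2 ∪ Phi (u c) '' Icc (1 / 2) 2
/-- the lower journey -/
def jdown (c : Code n) (s : ℝ) : Set (ℝ × ℝ) :=
  Phi c '' Icc (-1) s ∪ Phi (v c) '' Icc (-1) (1 / 2)

theorem jup_pre (c : Code n) {s : ℝ} (hs : s ≤ 2) : IsPreconnected (jup c s) := by
  refine IsPreconnected.union (Phi c 2) ?_ ?_ (strand_pre _ _ _) (strand_pre _ _ _)
  · exact ⟨2, ⟨hs, le_rfl⟩, rfl⟩
  · exact ⟨2, ⟨by norm_num, le_rfl⟩, Phi_two c⟩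

theorem jdown_pre (c : Code n) {s : ℝ} (hs : -1 ≤ s) : IsPreconnected (jdown c s) := by
  refine IsPreconnected.union (Phi c (-1)) ?_ ?_ (strand_pre _ _ _) (strand_pre _ _ _)
  · exact ⟨-1, ⟨le_rfl, hs⟩, rfl⟩
  · exact ⟨-1, ⟨le_rfl, by norm_num⟩, Phi_neg c⟩

theorem jup_sub (c : Code n) {s : ℝ} (hs : -1 ≤ s) : jup c s ⊆ K n := by
  rintro p (⟨t, ht, rfl⟩ | ⟨t, ht, rfl⟩)
  · exact mem_K.2 ⟨c, t, ⟨hs.trans ht.1, ht.2⟩, rfl⟩
  · exact mem_K.2 ⟨u c, t, ⟨by linarith [ht.1], ht.2⟩, rfl⟩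

theorem jdown_sub (c : Code n) {s : ℝ} (hs : s ≤ 2) : jdown c s ⊆ K n := by
  rintro p (⟨t, ht, rfl⟩ | ⟨t, ht, rfl⟩)
  · exact mem_K.2 ⟨c, t, ⟨ht.1, ht.2.trans hs⟩, rfl⟩
  · exact mem_K.2 ⟨v c, t, ⟨ht.1, by linarith [ht.2]⟩, rfl⟩

theorem Phi_snd_up (c : Code n) {s : ℝ} (hs : 1 ≤ s) : 1 ≤ (Phi c s).2 := by
  rw [Phi_up c hs]
  have := abs_nonneg (x (u c) - x c)
  have h3 : 0 ≤ s - 1 := by linarith
  have : 0 ≤ (s - 1) * (|x (u c) - x c| / 2) := by positivity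
  simp only; linarith

theorem Phi_snd_down (c : Code n) {s : ℝ} (hs : s ≤ 0) : (Phi c s).2 ≤ 0 := by
  rw [Phi_down c hs]
  have := abs_nonneg (x (v c) - x c)
  have h3 : 0 ≤ -s := by linarith
  have : 0 ≤ (-s) * (|x (v c) - x c| / 2) := by positivity
  simp only; linarith

theorem Phi_snd_ge (c : Code n) {s r : ℝ} (h : r ≤ s) (hr : r ≤ 1) (hr0 : 0 ≤ r) :
    r ≤ (Phi c s).2 := by
  rcases le_or_gt 1 s with h1 | h1
  · exact hr.trans (Phi_snd_up c h1)
  · rw [Phi_win c (hr0.trans h) h1.le]; exact h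

theorem Phi_snd_le (c : Code n) {s r : ℝ} (h : s ≤ r) (hr : r ≤ 1) (hr0 : 0 ≤ r) :
    (Phi c s).2 ≤ r := by
  rcases le_or_gt s 0 with h1 | h1
  · exact (Phi_snd_down c h1).trans hr0
  · rw [Phi_win c h1.le (h.trans hr)]; exact h

/-- **Lifting along the chain.** -/
theorem Cov.pconst (hV : Cov n V) {l : ℕ} (hPC : PC n V l) : PConst n V l := by
  classical
  have hidx : ∀ c : Code n, ∃ i, ((x c, 1 / 2) : ℝ × ℝ) ∈ V i := fun c =>
    hV.cov _ (win_mem c (by norm_num) (by norm_num))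
  choose idx hidx using hidx
  -- comparison of links containing the same middle point
  have hsame : ∀ (c : Code n) (i : ℕ), sig n V i → mem V c i →
      ta n V l i = ta n V l (idx c) := by
    intro c i hs hm
    obtain ⟨h1, h2⟩ := half_sig (hidx c)
    obtain ⟨s, s0, s1, hsi⟩ := hm
    rcases le_total (1 / 2) s with h | h
    · have := walk_up hV l (A := Phi c '' Icc (1 / 2) s)
        (by rintro p ⟨t, ht, rfl⟩; exact mem_K.2 ⟨c, t, ⟨by linarith [ht.1], by linarith [ht.2]⟩, rfl⟩)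
        (strand_pre _ _ _)
        (by rintro p ⟨t, ht, rfl⟩; exact Phi_snd_ge c ht.1 (by norm_num) (by norm_num))
        (i := i) (j := idx c)
        ⟨_, ⟨s, ⟨h, le_rfl⟩, Phi_win c s0 s1⟩, hsi⟩
        ⟨_, ⟨1 / 2, ⟨le_rfl, h⟩, Phi_win c (by norm_num) (by norm_num)⟩, hidx c⟩
      rw [aval_eq hPC h1 h2, aval_eq hPC hs ⟨s, s0, s1, hsi⟩] at this
      omega
    · have := walk_down hV hPC (A := Phi c '' Icc s (1 / 2))
        (by rintro p ⟨t, ht, rfl⟩; exact mem_K.2 ⟨c, t, ⟨by linarith [ht.1], by linarith [ht.2]⟩, rfl⟩)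
        (strand_pre _ _ _)
        (by rintro p ⟨t, ht, rfl⟩; exact Phi_snd_le c ht.2 (by norm_num) (by norm_num))
        (i := i) (j := idx c)
        ⟨_, ⟨s, ⟨le_rfl, h⟩, Phi_win c s0 s1⟩, hsi⟩
        ⟨_, ⟨1 / 2, ⟨h, le_rfl⟩, Phi_win c (by norm_num) (by norm_num)⟩, hidx c⟩
      rw [bval_eq hPC h1 h2, bval_eq hPC hs ⟨s, s0, s1, hsi⟩] at this
      omega
  -- the invariant
  obtain ⟨δ, hδ, hleb⟩ := lebesgue_number_lemma_of_metric (s := K n) (c := V) isCompact_K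
    hV.op (fun p hp => mem_iUnion.2 (hV.cov p hp))
  obtain ⟨m, hm⟩ := w_small n hδ
  have hconst := conn (n := n) (fun c => ta n V l (idx c) - 2 * P c l) (fun c => ?_) (fun c => ?_)
    (max m (l + 1)) (fun c c' hp => ?_)
  · intro i hs c c' hc hc'
    have h1 := hconst c c'
    rw [← hsame c i hs hc, ← hsame c' i hs hc'] at h1
    omega
  · -- u
    obtain ⟨h1, h2⟩ := half_sig (hidx c)
    obtain ⟨h3, h4⟩ := half_sig (hidx (u c))
    have := walk_up hV l (jup_sub c (s := 1 / 2) (by norm_num)) (jup_pre c (by norm_num))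
      (by
        rintro p (⟨t, ht, rfl⟩ | ⟨t, ht, rfl⟩)
        · exact Phi_snd_ge c ht.1 (by norm_num) (by norm_num)
        · exact Phi_snd_ge (u c) ht.1 (by norm_num) (by norm_num))
      (i := idx c) (j := idx (u c))
      ⟨_, Or.inl ⟨1 / 2, ⟨le_rfl, by norm_num⟩, Phi_win c (by norm_num) (by norm_num)⟩, hidx c⟩
      ⟨_, Or.inr ⟨1 / 2, ⟨le_rfl, by norm_num⟩, Phi_win (u c) (by norm_num) (by norm_num)⟩,
        hidx (u c)⟩
    rw [aval_eq hPC h1 h2, aval_eq hPC h3 h4] at this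
    by_cases hP : P (u c) l = P c l
    · rw [bit_of_P hP] at this
      omega
    · have hb := bit_of_P_ne (P_u_int c l hP)
      rw [hb] at this
      rcases P_u c l with h5 | h5
      · exact absurd h5 hP
      · cases h6 : c.1 l <;> rw [h6] at this h5 <;> simp at this h5 <;> omega
  · -- v
    obtain ⟨h1, h2⟩ := half_sig (hidx c)
    obtain ⟨h3, h4⟩ := half_sig (hidx (v c))
    have := walk_down hV hPC (jdown_sub c (s := 1 / 2) (by norm_num)) (jdown_pre c (by norm_num))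
      (by
        rintro p (⟨t, ht, rfl⟩ | ⟨t, ht, rfl⟩)
        · exact Phi_snd_le c ht.2 (by norm_num) (by norm_num)
        · exact Phi_snd_le (v c) ht.2 (by norm_num) (by norm_num))
      (i := idx c) (j := idx (v c))
      ⟨_, Or.inl ⟨1 / 2, ⟨by norm_num, le_rfl⟩, Phi_win c (by norm_num) (by norm_num)⟩, hidx c⟩
      ⟨_, Or.inr ⟨1 / 2, ⟨by norm_num, le_rfl⟩, Phi_win (v c) (by norm_num) (by norm_num)⟩,
        hidx (v c)⟩
    rw [bval_eq hPC h1 h2, bval_eq hPC h3 h4, v_bit] at this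
    rw [P_v]
    cases h6 : c.1 l <;> rw [h6] at this <;> simp at this ⊢ <;> omega
  · -- prefix
    have hp1 : Pre m c c' := hp.mono (le_max_left _ _)
    have hp2 : Pre (l + 1) c c' := hp.mono (le_max_right _ _)
    obtain ⟨i, hi⟩ := hleb (x c, 1 / 2) (win_mem c (by norm_num) (by norm_num))
    have b1 := hi (Metric.mem_ball_self hδ)
    have b2 : ((x c', 1 / 2) : ℝ × ℝ) ∈ V i := by
      apply hi
      rw [Metric.mem_ball, Prod.dist_eq]
      simp only [dist_self]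
      rw [Real.dist_eq, max_eq_left (abs_nonneg _)]
      exact (x_pre hp1).trans_lt hm
    have e1 := hsame c i (half_sig b1).1 (half_sig b1).2
    have e2 := hsame c' i (half_sig b2).1 (half_sig b2).2
    rw [← e1, ← e2, P_of_pre c c' l hp2]

end lift

end Pool.Agent.H.MP_82e23a_gt
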