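import Pool.Agent.H.MP_82e23a_gt.Res

set_option autoImplicit false

/-! Refinements see the lanes; the sliding lemma; the counting contradiction. -/

namespace Pool.Agent.H.MP_82e23a_gt

open Set

variable {n : ℕ → ℕ} {V V' : ℕ → Set (ℝ × ℝ)}

/-- refinement with small connectors in the plane -/
def Ref (n : ℕ → ℕ) (V' V : ℕ → Set (ℝ × ℝ)) : Prop :=
  ∀ i', ∀ p ∈ K n, ∀ q ∈ K n, p ∈ V' i' → q ∈ V' i' →
    ∃ (i : ℕ) (S : Set (ℝ × ℝ)), IsPreconnected S ∧ p ∈ S ∧ q ∈ S ∧ S ⊆ V i ∧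
      ∀ r ∈ S, dist r q < 1 / 8

theorem sameL.symm {l : ℕ} {c c' : Code n} (h : sameL l c c') : sameL l c' c :=
  ⟨h.1.symm, h.2.symm⟩

theorem sameL.trans {l : ℕ} {c c' c'' : Code n} (h : sameL l c c') (h' : sameL l c' c'') :
    sameL l c c'' := ⟨h.1.trans h'.1, h.2.trans h'.2⟩

theorem sameL.P_eq {l : ℕ} {c c' : Code n} (h : sameL l c c') : P c l = P c' l := by
  unfold P
  rw [h.1, h.2]

theorem lane_between {a b : Code n} {l : ℕ} (hth : th a l = th b l) (ha : (a.2 l : ℕ) = 0)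
    (hb : (b.2 l : ℕ) = 2) : ∃ w0 : Code n, P w0 l ≠ P a l ∧
      ((x a < x w0 ∧ x w0 < x b) ∨ (x b < x w0 ∧ x w0 < x a)) := by
  have hab := pre_of_th a b l hth
  let w0 : Code n := (a.1, Function.update a.2 l ⟨1, by omega⟩)
  have hw1 : ∀ i, w0.1 i = a.1 i := fun i => rfl
  have hw2 : ∀ i, i ≠ l → w0.2 i = a.2 i := fun i hi => Function.update_of_ne hi _ _
  have hw3 : (w0.2 l : ℕ) = 1 := by
    change ((Function.update a.2 l ⟨1, by omega⟩ l : Fin (n l + 3)) : ℕ) = 1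
    rw [Function.update_self]
  have haw : Pre l a w0 := ⟨fun i _ => (hw1 i).symm, fun i hi => (hw2 i (by omega)).symm⟩
  have hwb : Pre l w0 b := ⟨fun i hi => (hw1 i).trans (hab.1 i hi),
    fun i hi => (hw2 i (by omega)).trans (hab.2 i hi)⟩
  refine ⟨w0, ?_, ?_⟩
  · unfold P Pp
    rw [← th_of_pre a w0 l haw, hw3, ha]
    have := Ln_pos n l
    simp [qj]; omega
  · have e1 := dig_of_pre haw
    have e2 := dig_of_pre hwb
    have d1 : dig a (l + 1) = bv (a.1 (l + 1)) := by simp [dig, ha]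
    have d2 : dig w0 (l + 1) = (if a.1 l then 2 else -2) + bv (w0.1 (l + 1)) := by
      simp only [dig, hw3, hw1 l]; split_ifs <;> norm_num
    have d3 : dig b (l + 1) = (if a.1 l then 4 else -4) + bv (b.1 (l + 1)) := by
      simp only [dig, hb, hab.1 l le_rfl]; split_ifs <;> norm_num
    have b1 := bv_bd (a.1 (l + 1))
    have b2 := bv_bd (w0.1 (l + 1))
    have b3 := bv_bd (b.1 (l + 1))
    cases h : a.1 l <;> rw [h] at d2 d3 <;> simp at d2 d3
    · right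
      constructor
      · exact x_lt b w0 (l + 1) (fun i hi => (e2 i (by omega)).symm) (by omega)
      · exact x_lt w0 a (l + 1) (fun i hi => (e1 i (by omega)).symm) (by omega)
    · left
      constructor
      · exact x_lt a w0 (l + 1) (fun i hi => e1 i (by omega)) (by omega)
      · exact x_lt w0 b (l + 1) (fun i hi => e2 i (by omega)) (by omega)

/-- a connected set crossing a strand -/
theorem cross {S : Set (ℝ × ℝ)} (hS : IsPreconnected S) {p q : ℝ × ℝ} (hp : p ∈ S) (hq : q ∈ S)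
    {t : ℝ} (h : (p.1 < t ∧ t < q.1) ∨ (q.1 < t ∧ t < p.1)) : ∃ r ∈ S, r.1 = t := by
  have h1 : IsPreconnected (Prod.fst '' S) := hS.image _ continuous_fst.continuousOn
  have h2 := h1.ordConnected
  rcases h with ⟨ha, hb⟩ | ⟨ha, hb⟩
  · obtain ⟨r, hr, e⟩ := h2.out (mem_image_of_mem _ hp) (mem_image_of_mem _ hq) ⟨ha.le, hb.le⟩
    exact ⟨r, hr, e⟩
  · obtain ⟨r, hr, e⟩ := h2.out (mem_image_of_mem _ hq) (mem_image_of_mem _ hp) ⟨ha.le, hb.le⟩
    exact ⟨r, hr, e⟩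

/-- refinement sees the lanes -/
theorem lconst_of_pconst (hR : Ref n V' V) (hV' : Cov n V') {l : ℕ} (hP : PConst n V l) :
    LConst n V' l := by
  intro i' hs c c' hc hc'
  obtain ⟨z, zK, zV, z1, z2⟩ := hs
  obtain ⟨cz, hz⟩ := win_of_mem zK (by linarith) (by linarith)
  have key : ∀ c : Code n, mem V' c i' → sameL l c cz := by
    intro c hc
    obtain ⟨s, s0, s1, hs⟩ := hc
    obtain ⟨i, S, hS, pS, qS, hSV, hd⟩ := hR i' _ (win_mem c s0 s1) z zK hs zV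
    have hsig : sig n V i := ⟨z, zK, hSV qS, z1, z2⟩
    have mc : mem V c i := ⟨s, s0, s1, hSV pS⟩
    have mz : mem V cz i := ⟨z.2, by linarith, by linarith, by rw [← hz]; exact hSV qS⟩
    have hPc := hP i hsig c cz mc mz
    obtain ⟨e1, e2⟩ := P_inj c cz l hPc
    refine ⟨e1, ?_⟩
    -- auxiliary: nothing strictly between may have another position
    have noc : ∀ w0 : Code n, ((x c < x w0 ∧ x w0 < x cz) ∨ (x cz < x w0 ∧ x w0 < x c)) →
        P w0 l = P cz l := by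
      intro w0 hw0
      have hz1 : z.1 = x cz := by rw [hz]
      obtain ⟨r, hr, e⟩ := cross hS pS qS (t := x w0) (by rw [hz1]; exact hw0)
      have hr2 := dist_snd (hd r hr)
      rw [abs_lt] at hr2
      refine hP i hsig w0 cz ⟨r.2, by linarith, by linarith, ?_⟩ mz
      rw [← e]; exact hSV hr
    rcases qj_inj e2 with h | ⟨h1, h2⟩ | ⟨h1, h2⟩
    · exact Fin.ext h
    · exfalso
      obtain ⟨w0, w1, w2⟩ := lane_between e1 h1 h2
      exact w1 (by rw [noc w0 w2, hPc])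
    · exfalso
      obtain ⟨w0, w1, w2⟩ := lane_between e1.symm h2 h1
      exact w1 (noc w0 w2.symm)
  exact (key c hc).trans (key c' hc').symm

/-- abstract triod lemma -/
theorem triod (hV : Cov n V) {A B D : Set (ℝ × ℝ)} (hA : A ⊆ K n) (hB : B ⊆ K n) (hD : D ⊆ K n)
    (pA : IsPreconnected A) (pB : IsPreconnected B) (pD : IsPreconnected D)
    {i ia ib id : ℕ} (iA : (A ∩ V i).Nonempty) (iB : (B ∩ V i).Nonempty)
    (iD : (D ∩ V i).Nonempty) (aA : (A ∩ V ia).Nonempty) (bB : (B ∩ V ib).Nonempty)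
    (dD : (D ∩ V id).Nonempty) (aD : ¬ (D ∩ V ia).Nonempty) (bD : ¬ (D ∩ V ib).Nonempty)
    (dA : ¬ (A ∩ V id).Nonempty) (dB : ¬ (B ∩ V id).Nonempty) :
    (A ∩ V ib).Nonempty ∨ (B ∩ V ia).Nonempty := by
  have hia : ia ≠ i := by rintro rfl; exact aD iD
  have hib : ib ≠ i := by rintro rfl; exact bD iD
  have hid : id ≠ i := by rintro rfl; exact dA iA
  rcases lt_or_gt_of_ne hid with h | h
  · -- id < i
    have h1 : i < ia := by
      by_contra hcon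
      rcases le_total ia id with h2 | h2
      · exact dA (hV.mid hA pA aA iA h2 h.le)
      · exact aD (hV.mid hD pD dD iD h2 (by omega))
    have h2 : i < ib := by
      by_contra hcon
      rcases le_total ib id with h2 | h2
      · exact dB (hV.mid hB pB bB iB h2 h.le)
      · exact bD (hV.mid hD pD dD iD h2 (by omega))
    rcases le_total ia ib with h3 | h3
    · right; exact hV.mid hB pB iB bB h1.le h3
    · left; exact hV.mid hA pA iA aA h2.le h3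
  · have h1 : ia < i := by
      by_contra hcon
      rcases le_total ia id with h2 | h2
      · exact aD (hV.mid hD pD iD dD (by omega) h2)
      · exact dA (hV.mid hA pA iA aA h.le h2)
    have h2 : ib < i := by
      by_contra hcon
      rcases le_total ib id with h2 | h2
      · exact bD (hV.mid hD pD iD dD (by omega) h2)
      · exact dB (hV.mid hB pB iB bB h.le h2)
    rcases le_total ia ib with h3 | h3
    · left; exact hV.mid hA pA aA iA h3 h2.le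
    · right; exact hV.mid hB pB bB iB h3 h1.le

/-- two codes in a common middle link -/
def merged (n : ℕ → ℕ) (V : ℕ → Set (ℝ × ℝ)) (c c' : Code n) : Prop :=
  ∃ i, sig n V i ∧ mem V c i ∧ mem V c' i

theorem slide_abs (hV : Cov n V) {l : ℕ} (hL : LConst n V l) {a a' b b' : Code n} {i : ℕ}
    (hi : sig n V i) (ma : mem V a i) (mb : mem V b i)
    {A B D : Set (ℝ × ℝ)} (hA : A ⊆ K n) (hB : B ⊆ K n) (hD : D ⊆ K n)
    (pA : IsPreconnected A) (pB : IsPreconnected B) (pD : IsPreconnected D)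
    (iA : (A ∩ V i).Nonempty) (iB : (B ∩ V i).Nonempty) (iD : (D ∩ V i).Nonempty)
    (eA : ((x a', 1 / 2) : ℝ × ℝ) ∈ A) (eB : ((x b', 1 / 2) : ℝ × ℝ) ∈ B)
    (wA : ∀ p ∈ A, 1 / 8 < p.2 → p.2 < 7 / 8 → p = (x a, p.2) ∨ p = (x a', p.2))
    (wB : ∀ p ∈ B, 1 / 8 < p.2 → p.2 < 7 / 8 → p = (x b, p.2) ∨ p = (x b', p.2))
    (wD : ∀ p ∈ D, 1 / 8 < p.2 → p.2 < 7 / 8 → p = (x a, p.2))
    {d : ℝ × ℝ} (dD : d ∈ D) (dA : ∀ p ∈ A, 1 / 8 ≤ |p.2 - d.2|)
    (dB : ∀ p ∈ B, 1 / 8 ≤ |p.2 - d.2|) (ha : ¬ sameL l a a') (hb : ¬ sameL l b b') :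
    merged n V a' b' := by
  obtain ⟨ia, hia⟩ := hV.cov _ (hA eA)
  obtain ⟨ib, hib⟩ := hV.cov _ (hB eB)
  obtain ⟨id, hid⟩ := hV.cov _ (hD dD)
  obtain ⟨sa, ma'⟩ := half_sig hia
  obtain ⟨sb, mb'⟩ := half_sig hib
  have hab : sameL l a b := hL i hi a b ma mb
  have toMem : ∀ {c : Code n} {p : ℝ × ℝ} {j : ℕ}, p = (x c, p.2) → 1 / 8 < p.2 → p.2 < 7 / 8 →
      p ∈ V j → mem V c j := by
    intro c p j h h1 h2 h3
    exact ⟨p.2, by linarith, by linarith, by rw [← h]; exact h3⟩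
  have main := triod hV hA hB hD pA pB pD iA iB iD ⟨_, eA, hia⟩ ⟨_, eB, hib⟩ ⟨_, dD, hid⟩
    (by
      rintro ⟨p, p1, p2⟩
      obtain ⟨b1, b2⟩ := hV.sig_bd sa (hD p1) p2
      exact ha (hL ia sa a a' (toMem (wD p p1 b1 b2) b1 b2 p2) ma'))
    (by
      rintro ⟨p, p1, p2⟩
      obtain ⟨b1, b2⟩ := hV.sig_bd sb (hD p1) p2
      exact hb (hab.symm.trans (hL ib sb a b' (toMem (wD p p1 b1 b2) b1 b2 p2) mb')))
    (by
      rintro ⟨p, p1, p2⟩
      have h1 := dist_snd (hV.small id p (hA p1) d (hD dD) p2 hid)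
      exact absurd (dA p p1) (not_le.2 h1))
    (by
      rintro ⟨p, p1, p2⟩
      have h1 := dist_snd (hV.small id p (hB p1) d (hD dD) p2 hid)
      exact absurd (dB p p1) (not_le.2 h1))
  rcases main with ⟨p, p1, p2⟩ | ⟨p, p1, p2⟩
  · obtain ⟨b1, b2⟩ := hV.sig_bd sb (hA p1) p2
    rcases wA p p1 b1 b2 with h | h
    · exact absurd (hab.symm.trans (hL ib sb a b' (toMem h b1 b2 p2) mb')) hb
    · exact ⟨ib, sb, toMem h b1 b2 p2, mb'⟩
  · obtain ⟨b1, b2⟩ := hV.sig_bd sa (hB p1) p2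
    rcases wB p p1 b1 b2 with h | h
    · exact absurd (hab.trans (hL ia sa b a' (toMem h b1 b2 p2) ma')) ha
    · exact ⟨ia, sa, ma', toMem h b1 b2 p2⟩

theorem Phi_fst_win (c : Code n) {s : ℝ} (h1 : 1 / 8 < (Phi c s).2) (h2 : (Phi c s).2 < 7 / 8) :
    Phi c s = (x c, (Phi c s).2) := by
  rcases le_or_gt s 0 with h | h
  · have := Phi_snd_down c h
    linarith
  · rcases le_or_gt 1 s with h' | h'
    · have := Phi_snd_up c h'
      linarith
    · rw [Phi_win c h.le h'.le]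

theorem slide_v (hV : Cov n V) {l : ℕ} (hL : LConst n V l) {a b : Code n} (h : merged n V a b)
    (ha : ¬ sameL l a (v a)) (hb : ¬ sameL l b (v b)) : merged n V (v a) (v b) := by
  obtain ⟨i, hi, ma, mb⟩ := h
  obtain ⟨s, s0, s1, hs⟩ := id ma
  obtain ⟨t, t0, t1, ht⟩ := id mb
  obtain ⟨b1, b2⟩ := hV.sig_bd hi (win_mem a s0 s1) hs
  obtain ⟨b3, b4⟩ := hV.sig_bd hi (win_mem b t0 t1) ht
  simp only at b1 b2 b3 b4
  refine slide_abs hV hL hi ma mb (A := jdown a s) (B := jdown b t) (D := Phi a '' Icc s 1)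
    (jdown_sub a (by linarith)) (jdown_sub b (by linarith)) ?_ (jdown_pre a (by linarith))
    (jdown_pre b (by linarith)) (strand_pre _ _ _) ?_ ?_ ?_ ?_ ?_ ?_ ?_ ?_
    (d := Phi a 1) ?_ ?_ ?_ ha hb
  · rintro p ⟨r, hr, rfl⟩
    exact mem_K.2 ⟨a, r, ⟨by linarith [hr.1], by linarith [hr.2]⟩, rfl⟩
  · exact ⟨_, Or.inl ⟨s, ⟨by linarith, le_rfl⟩, Phi_win a s0 s1⟩, hs⟩
  · exact ⟨_, Or.inl ⟨t, ⟨by linarith, le_rfl⟩, Phi_win b t0 t1⟩, ht⟩
  · exact ⟨_, ⟨s, ⟨le_rfl, by linarith⟩, Phi_win a s0 s1⟩, hs⟩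
  · exact Or.inr ⟨1 / 2, ⟨by norm_num, le_rfl⟩, Phi_win (v a) (by norm_num) (by norm_num)⟩
  · exact Or.inr ⟨1 / 2, ⟨by norm_num, le_rfl⟩, Phi_win (v b) (by norm_num) (by norm_num)⟩
  · rintro p (⟨r, hr, rfl⟩ | ⟨r, hr, rfl⟩) h1 h2
    · exact Or.inl (Phi_fst_win a h1 h2)
    · exact Or.inr (Phi_fst_win (v a) h1 h2)
  · rintro p (⟨r, hr, rfl⟩ | ⟨r, hr, rfl⟩) h1 h2
    · exact Or.inl (Phi_fst_win b h1 h2)
    · exact Or.inr (Phi_fst_win (v b) h1 h2)
  · rintro p ⟨r, hr, rfl⟩ h1 h2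
    exact Phi_fst_win a h1 h2
  · exact ⟨1, ⟨by linarith, le_rfl⟩, rfl⟩
  · rintro p (⟨r, hr, rfl⟩ | ⟨r, hr, rfl⟩)
    · have h1 := Phi_snd_le a hr.2 s1 s0
      have h2 := Phi_snd_up a (le_refl (1 : ℝ))
      rw [le_abs]; right; linarith
    · have h1 := Phi_snd_le (v a) hr.2 (by norm_num) (by norm_num)
      have h2 := Phi_snd_up a (le_refl (1 : ℝ))
      rw [le_abs]; right; linarith
  · rintro p (⟨r, hr, rfl⟩ | ⟨r, hr, rfl⟩)
    · have h1 := Phi_snd_le b hr.2 t1 t0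
      have h2 := Phi_snd_up a (le_refl (1 : ℝ))
      rw [le_abs]; right; linarith
    · have h1 := Phi_snd_le (v b) hr.2 (by norm_num) (by norm_num)
      have h2 := Phi_snd_up a (le_refl (1 : ℝ))
      rw [le_abs]; right; linarith

theorem slide_u (hV : Cov n V) {l : ℕ} (hL : LConst n V l) {a b : Code n} (h : merged n V a b)
    (ha : ¬ sameL l a (u a)) (hb : ¬ sameL l b (u b)) : merged n V (u a) (u b) := by
  obtain ⟨i, hi, ma, mb⟩ := h
  obtain ⟨s, s0, s1, hs⟩ := id ma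
  obtain ⟨t, t0, t1, ht⟩ := id mb
  obtain ⟨b1, b2⟩ := hV.sig_bd hi (win_mem a s0 s1) hs
  obtain ⟨b3, b4⟩ := hV.sig_bd hi (win_mem b t0 t1) ht
  simp only at b1 b2 b3 b4
  refine slide_abs hV hL hi ma mb (A := jup a s) (B := jup b t) (D := Phi a '' Icc 0 s)
    (jup_sub a (by linarith)) (jup_sub b (by linarith)) ?_ (jup_pre a (by linarith))
    (jup_pre b (by linarith)) (strand_pre _ _ _) ?_ ?_ ?_ ?_ ?_ ?_ ?_ ?_
    (d := Phi a 0) ?_ ?_ ?_ ha hb
  · rintro p ⟨r, hr, rfl⟩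
    exact mem_K.2 ⟨a, r, ⟨by linarith [hr.1], by linarith [hr.2]⟩, rfl⟩
  · exact ⟨_, Or.inl ⟨s, ⟨le_rfl, by linarith⟩, Phi_win a s0 s1⟩, hs⟩
  · exact ⟨_, Or.inl ⟨t, ⟨le_rfl, by linarith⟩, Phi_win b t0 t1⟩, ht⟩
  · exact ⟨_, ⟨s, ⟨by linarith, le_rfl⟩, Phi_win a s0 s1⟩, hs⟩
  · exact Or.inr ⟨1 / 2, ⟨le_rfl, by norm_num⟩, Phi_win (u a) (by norm_num) (by norm_num)⟩
  · exact Or.inr ⟨1 / 2, ⟨le_rfl, by norm_num⟩, Phi_win (u b) (by norm_num) (by norm_num)⟩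
  · rintro p (⟨r, hr, rfl⟩ | ⟨r, hr, rfl⟩) h1 h2
    · exact Or.inl (Phi_fst_win a h1 h2)
    · exact Or.inr (Phi_fst_win (u a) h1 h2)
  · rintro p (⟨r, hr, rfl⟩ | ⟨r, hr, rfl⟩) h1 h2
    · exact Or.inl (Phi_fst_win b h1 h2)
    · exact Or.inr (Phi_fst_win (u b) h1 h2)
  · rintro p ⟨r, hr, rfl⟩ h1 h2
    exact Phi_fst_win a h1 h2
  · exact ⟨0, ⟨le_rfl, by linarith⟩, rfl⟩
  · rintro p (⟨r, hr, rfl⟩ | ⟨r, hr, rfl⟩)
    · have h1 := Phi_snd_ge a hr.1 s1 s0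
      have h2 := Phi_snd_down a (le_refl (0 : ℝ))
      rw [le_abs]; left; linarith
    · have h1 := Phi_snd_ge (u a) hr.1 (by norm_num) (by norm_num)
      have h2 := Phi_snd_down a (le_refl (0 : ℝ))
      rw [le_abs]; left; linarith
  · rintro p (⟨r, hr, rfl⟩ | ⟨r, hr, rfl⟩)
    · have h1 := Phi_snd_ge b hr.1 t1 t0
      have h2 := Phi_snd_down a (le_refl (0 : ℝ))
      rw [le_abs]; left; linarith
    · have h1 := Phi_snd_ge (u b) hr.1 (by norm_num) (by norm_num)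
      have h2 := Phi_snd_down a (le_refl (0 : ℝ))
      rw [le_abs]; left; linarith

end Pool.Agent.H.MP_82e23a_gt
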