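import Pool.Agent.H.MP_82e23a_gt.Arith

set_option autoImplicit false

/-! How positions change under the two involutions. -/

namespace Pool.Agent.H.MP_82e23a_gt

variable {n : ℕ → ℕ}

@[simp] theorem v_bit (c : Code n) (l : ℕ) : (v c).1 l = !(c.1 l) := rfl
@[simp] theorem v_lane (c : Code n) (l : ℕ) : (v c).2 l = c.2 l := rfl

theorem nextTh_flip (L A t s : ℤ) (j : ℕ) (b b' : Bool) :
    nextTh L A (t + s) j (!b) (!b') = nextTh L A t j b b' + (if b' = b then s else -s) := by
  unfold nextTh Pp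
  cases b <;> cases b' <;> split_ifs <;> (try simp at *) <;> (try omega)

theorem th_succ (c : Code n) (l : ℕ) : th c (l + 1) =
    nextTh (Ln n l) (An n l) (th c l) (c.2 l) (c.1 l) (c.1 (l + 1)) := rfl

theorem th_v (c : Code n) (l : ℕ) : th (v c) l = th c l + (1 - 2 * bv (c.1 l)) := by
  induction l with
  | zero => cases h : c.1 0 <;> simp [th, h]
  | succ l ih =>
    rw [th_succ, th_succ, ih, v_bit, v_bit, v_lane, nextTh_flip]
    cases c.1 l <;> cases c.1 (l + 1) <;> simp

theorem P_v (c : Code n) (l : ℕ) : P (v c) l = P c l + (1 - 2 * bv (c.1 l)) := by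
  unfold P Pp
  rw [th_v]; simp only [v_lane]; ring

/-- numerical facts about one lane -/
structure QF (L A : ℤ) (m j : ℕ) (w : ℤ) : Prop where
  hL : 2 ≤ L
  hLe : L % 2 = 0
  hA : L ≤ A
  hAe : A % 2 = 0
  hj : j < m + 3
  h0 : j = 0 → w = 0
  h1 : j = 1 → w = -L
  h2 : 2 ≤ j → 0 ≤ w ∧ w ≤ A - L
  he : w % 2 = 0
  ht : j = m + 2 → w = A - L
  hn : 2 ≤ j → j < m + 2 → w ≤ A - 2 * L

theorem qf (c : Code n) (l : ℕ) :
    QF (Ln n l) (An n l) (n l) (c.2 l) (qj (c.2 l) * Ln n l) := by
  obtain ⟨a1, a2, a3⟩ := An_facts n l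
  obtain ⟨q0, q1, q2, q3⟩ := qj_facts (Ln n l) (n l) (c.2 l) (Ln_pos n l) (Ln_even n l) (c.2 l).2
  refine ⟨Ln_pos n l, Ln_even n l, a1, a2, (c.2 l).2, q0, q1, q2, q3, ?_, ?_⟩
  · intro h
    have : qj (c.2 l) = (n l : ℤ) := by rw [h]; simp [qj]
    rw [this]; unfold An; ring
  · intro h2 h
    have : qj (c.2 l) = ((c.2 l : ℕ) : ℤ) - 2 := by
      unfold qj; rw [if_neg (by omega)]
    rw [this]; unfold An
    have h3 : ((c.2 l : ℕ) : ℤ) ≤ n l + 1 := by
      exact_mod_cast (by omega : (c.2 l : ℕ) ≤ n l + 1)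
    have := Ln_pos n l
    nlinarith

theorem next_act (L A t w : ℤ) (m j : ℕ) (a b b' : Bool) (hw : qj j * L = w)
    (q : QF L A m j w) (hb : 0 ≤ t ∧ t < L ∧ t % 2 = bv b)
    (ha : (a = true → t = if b then L - 1 else 0) ∧ (a = false → 0 < t ∧ t < L - 1)) :
    ((a && (b && decide (j = m + 2))) = true → nextTh L A t j b b' =
      if b' then 2 * A + 4 * L - 1 else 0) ∧
    ((a && (b && decide (j = m + 2))) = false → 0 < nextTh L A t j b b' ∧
      nextTh L A t j b b' < 2 * A + 4 * L - 1) := by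
  obtain ⟨hL, hLe, hA, hAe, hj, h0, h1, h2, he, ht, hn⟩ := q
  unfold nextTh Pp
  rw [hw]
  have hj3 : j = 0 ∨ j = 1 ∨ (2 ≤ j ∧ j < m + 2) ∨ j = m + 2 := by omega
  rcases hj3 with hj | hj | hj | hj
  · subst hj
    have := h0 rfl
    cases a <;> cases b <;> cases b' <;> simp at * <;> omega
  · subst hj
    have := h1 rfl
    cases a <;> cases b <;> cases b' <;> simp at * <;> omega
  · have e1 := h2 hj.1
    have e2 := hn hj.1 hj.2
    have e3 : ¬ (j = m + 2) := by omega
    have e4 : ¬ (j = 0) := by omega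
    cases a <;> cases b <;> cases b' <;> simp [e3, e4, hj.1] at * <;> omega
  · have e1 := ht hj
    have e2 : 2 ≤ j := by omega
    have e4 : ¬ (j = 0) := by omega
    cases a <;> cases b <;> cases b' <;> simp [e4, e2, hj] at * <;> omega

theorem th_act (c : Code n) (l : ℕ) :
    (act c l = true → th c l = if c.1 l then Ln n l - 1 else 0) ∧
    (act c l = false → 0 < th c l ∧ th c l < Ln n l - 1) := by
  induction l with
  | zero => 
    refine ⟨fun _ => ?_, fun h => by simp [act] at h⟩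
    cases h : c.1 0 <;> simp [th, h, Ln]
  | succ l ih =>
    rw [(An_facts n l).2.2, th_succ]
    exact next_act _ _ _ _ (n l) _ (act c l) _ _ rfl (qf c l) (th_bd c l) ih

theorem u_bit_false (c : Code n) (l : ℕ) (h : act c l = false) : (u c).1 l = !(c.1 l) := by
  rw [u_bit, h]; simp

theorem u_lane_false (c : Code n) (l : ℕ) (h : act c l = false) :
    ((u c).2 l : ℕ) = (c.2 l : ℕ) := by
  rw [u_lane, h]; simp

theorem u_bit_true (c : Code n) (l : ℕ) (h : act c l = true) : (u c).1 l =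
    tb (n l) (c.1 l) (c.2 l) (c.1 (l + 1)) := by
  rw [u_bit, h]; simp

theorem u_lane_true (c : Code n) (l : ℕ) (h : act c l = true) :
    ((u c).2 l : ℕ) = tj (n l) (c.1 l) (c.2 l) (c.1 (l + 1)) := by
  rw [u_lane, h]; simp

theorem qj_mul_succ (L : ℤ) (j : ℕ) (h : 1 ≤ j) : qj (j + 1) * L = qj j * L + L := by
  unfold qj
  rw [if_neg (by omega), if_neg (by omega)]; push_cast; ring

/-- the central transition at the first inactive level: position. -/
theorem tab_th (L A w : ℤ) (m j : ℕ) (b b' : Bool) (hw : qj j * L = w) (q : QF L A m j w)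
    (h : ¬ (b = true ∧ j = m + 2)) :
    nextTh L A (if tb m b j b' then L - 1 else 0) (tj m b j b') (tb m b j b') (!b') =
      nextTh L A (if b then L - 1 else 0) j b b' + (2 * bv b' - 1) := by
  obtain ⟨hL, hLe, hA, hAe, hj, h0, h1, h2, he, ht, hn⟩ := q
  have z0 : qj 0 * L = 0 := by simp [qj]
  have z1 : qj 1 * L = -L := by simp [qj]
  have z2 : qj 2 * L = 0 := by simp [qj]
  have hj3 : j = 0 ∨ j = 1 ∨ j = 2 ∨ 3 ≤ j := by omega
  cases b
  · -- b = false
    rcases hj3 with rfl | rfl | rfl | hj3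
    · cases b' <;> simp [tb, tj, nextTh, Pp, z0, z1, z2] <;> omega
    · cases b' <;> simp [tb, tj, nextTh, Pp, z0, z1, z2] <;> omega
    · cases b' <;> simp [tb, tj, nextTh, Pp, z0, z1, z2] <;> omega
    · obtain ⟨k, rfl⟩ : ∃ k, j = k + 1 := ⟨j - 1, by omega⟩
      have e1 : tb m false (k + 1) b' = true := by simp only [tb]; rw [if_pos hj3]
      have e2 : tj m false (k + 1) b' = k := by simp only [tj]; rw [if_pos hj3]; rfl
      have e3 := qj_mul_succ L k (by omega)
      rw [e1, e2]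
      unfold nextTh Pp
      rw [e3]
      have f1 : ¬ (k = 0) := by omega
      have f2 : 2 ≤ k := by omega
      have f3 : 2 ≤ k + 1 := by omega
      cases b' <;> simp [f1, f2, f3] <;> omega
  · rcases (by omega : j = 0 ∨ j = 1 ∨ 2 ≤ j) with rfl | rfl | hj3
    · cases b' <;> simp [tb, tj, nextTh, Pp, z0, z1, z2] <;> omega
    · cases b' <;> simp [tb, tj, nextTh, Pp, z0, z1, z2] <;> omega
    · have hjt : ¬ (j = m + 2) := fun e => h ⟨rfl, e⟩
      have e1 : tb m true j b' = false := by simp [tb]; omega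
      have e2 : tj m true j b' = j + 1 := by simp only [tj]; rw [if_neg hjt, if_pos hj3]
      have e3 := qj_mul_succ L j (by omega)
      rw [e1, e2]
      unfold nextTh Pp
      rw [e3]
      have f1 : ¬ (j = 0) := by omega
      have f2 : 2 ≤ j := by omega
      have f3 : 2 ≤ j + 1 := by omega
      cases b' <;> simp [f1, f2, f3] <;> omega

theorem th_u (c : Code n) (l : ℕ) (h : act c l = false) :
    th (u c) l = th c l + (2 * bv (c.1 l) - 1) := by
  induction l with
  | zero => simp [act] at h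
  | succ l ih =>
    rw [th_succ, th_succ, u_bit_false c (l + 1) h]
    cases ha : act c l with
    | false =>
      rw [ih ha, u_bit_false c l ha, u_lane_false c l ha, nextTh_flip]
      cases c.1 l <;> cases c.1 (l + 1) <;> simp
    | true =>
      have e1 := (th_act (u c) l).1 (by rw [act_u]; exact ha)
      have e2 := (th_act c l).1 ha
      rw [e1, e2, u_lane_true c l ha, u_bit_true c l ha]
      exact tab_th _ _ _ (n l) _ _ _ rfl (qf c l)
        (fun hh => by rw [(act_succ c l).2 ⟨ha, hh.1, hh.2⟩] at h; exact absurd h (by simp))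

/-- `P` changes by at most one step (with sign given by the parity) under `u`. -/
theorem P_u (c : Code n) (l : ℕ) :
    P (u c) l = P c l ∨ P (u c) l = P c l + (2 * bv (c.1 l) - 1) := by
  unfold P Pp
  cases ha : act c l with
  | false =>
    right
    rw [th_u c l ha, u_lane_false c l ha]; ring
  | true =>
    have e1 := (th_act (u c) l).1 (by rw [act_u]; exact ha)
    have e2 := (th_act c l).1 ha
    rw [e1, e2, u_lane_true c l ha, u_bit_true c l ha]
    obtain ⟨hL, hLe, hA, hAe, hj, h0, h1, h2, he, ht, hn⟩ := qf c l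
    set L := Ln n l
    have z0 : qj 0 * L = 0 := by simp [qj]
    have z1 : qj 1 * L = -L := by simp [qj]
    have z2 : qj 2 * L = 0 := by simp [qj]
    generalize (c.2 l : ℕ) = j at *
    generalize c.1 (l + 1) = b' at *
    generalize n l = m at *
    cases c.1 l
    · rcases (by omega : j = 0 ∨ j = 1 ∨ j = 2 ∨ 3 ≤ j) with rfl | rfl | rfl | hj3
      · cases b' <;> simp [tb, tj, z0, z1, z2] <;> omega
      · cases b' <;> simp [tb, tj, z0, z1, z2] <;> omega
      · cases b' <;> simp [tb, tj, z0, z1, z2] <;> omega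
      · obtain ⟨k, rfl⟩ : ∃ k, j = k + 1 := ⟨j - 1, by omega⟩
        have e1 : tb m false (k + 1) b' = true := by simp only [tb]; rw [if_pos hj3]
        have e2 : tj m false (k + 1) b' = k := by simp only [tj]; rw [if_pos hj3]; rfl
        have e3 := qj_mul_succ L k (by omega)
        rw [e1, e2, e3]
        right; simp; ring
    · rcases (by omega : j = 0 ∨ j = 1 ∨ (2 ≤ j ∧ j ≠ m + 2) ∨ j = m + 2) with rfl | rfl | hj3 | hj3
      · cases b' <;> simp [tb, tj, z0, z1, z2]
      · cases b' <;> simp [tb, tj, z0, z1, z2] <;> omega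
      · have e1 : tb m true j b' = false := by simp [tb]; omega
        have e2 : tj m true j b' = j + 1 := by simp only [tj]; rw [if_neg hj3.2, if_pos hj3.1]
        have e3 := qj_mul_succ L j (by omega)
        rw [e1, e2, e3]
        right; simp; ring
      · have e1 : tb m true j b' = true := by simp [tb]; omega
        have e2 : tj m true j b' = j := by simp only [tj]; rw [if_pos hj3]
        rw [e1, e2]
        left; rfl

theorem eucl (L q q' t t' : ℤ) (ht : 0 ≤ t ∧ t < L) (ht' : 0 ≤ t' ∧ t' < L)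
    (h : t + q * L = t' + q' * L) : q = q' ∧ t = t' := by
  have hq : q = q' := by
    by_contra hne
    rcases lt_or_gt_of_ne hne with hlt | hlt
    · have : (q' - q) * L ≥ L := by nlinarith
      nlinarith
    · have : (q - q') * L ≥ L := by nlinarith
      nlinarith
  refine ⟨hq, ?_⟩
  rw [hq] at h; omega

theorem P_inj (c c' : Code n) (l : ℕ) (h : P c l = P c' l) :
    th c l = th c' l ∧ qj (c.2 l) = qj (c'.2 l) := by
  have h1 := th_bd c l
  have h2 := th_bd c' l
  have := eucl (Ln n l) (qj (c.2 l)) (qj (c'.2 l)) (th c l) (th c' l) ⟨h1.1, h1.2.1⟩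
    ⟨h2.1, h2.2.1⟩ h
  exact ⟨this.2, this.1⟩

theorem qj_inj {j j' : ℕ} (h : qj j = qj j') : j = j' ∨ ((j = 0 ∧ j' = 2) ∨ (j = 2 ∧ j' = 0)) := by
  unfold qj at h
  split_ifs at h <;> omega

theorem nextTh_inj (L A t t' : ℤ) (m j j' : ℕ) (b b' b1 b1' : Bool)
    (q : QF L A m j (qj j * L)) (q' : QF L A m j' (qj j' * L))
    (hb : 0 ≤ t ∧ t < L ∧ t % 2 = bv b) (hb' : 0 ≤ t' ∧ t' < L ∧ t' % 2 = bv b')
    (h : nextTh L A t j b b1 = nextTh L A t' j' b' b1') :
    b1 = b1' ∧ b = b' ∧ t = t' ∧ j = j' := by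
  have B1 := nextTh_bd L A t _ j b b1 rfl q.hL q.hLe q.hA q.hAe q.h0 q.h1 q.h2 q.he hb
  have B2 := nextTh_bd L A t' _ j' b' b1' rfl q'.hL q'.hLe q'.hA q'.hAe q'.h0 q'.h1 q'.h2 q'.he hb'
  have hb1 : b1 = b1' := by
    have e := B1.2.2
    rw [h, B2.2.2] at e
    cases b1 <;> cases b1' <;> simp at e ⊢
  subst hb1
  have key : Pp L t j = Pp L t' j' ∧ (j = 0 ↔ j' = 0) := by
    obtain ⟨hL, hLe, hA, hAe, hj, h0, h1, h2, he, ht, hn⟩ := q
    obtain ⟨hL', hLe', hA', hAe', hj', h0', h1', h2', he', ht', hn'⟩ := q'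
    clear B1 B2 ht hn ht' hn'
    unfold nextTh Pp at h
    unfold Pp
    generalize qj j * L = w at *
    generalize qj j' * L = w' at *
    have c1 : j = 0 ∨ j = 1 ∨ 2 ≤ j := by omega
    have c2 : j' = 0 ∨ j' = 1 ∨ 2 ≤ j' := by omega
    rcases c1 with c1 | c1 | c1 <;> rcases c2 with c2 | c2 | c2 <;>
      (first | have d0 := h0 c1 | have d1 := h1 c1 | have d2 := h2 c1) <;>
      (first | have d0' := h0' c2 | have d1' := h1' c2 | have d2' := h2' c2) <;>
      split_ifs at h <;> (try (constructor <;> omega)) <;> (try omega)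
  obtain ⟨k1, k2⟩ := key
  have e := eucl L (qj j) (qj j') t t' ⟨hb.1, hb.2.1⟩ ⟨hb'.1, hb'.2.1⟩ k1
  have hbb : b = b' := by
    have e1 := hb.2.2
    have e2 := hb'.2.2
    rw [e.2, e2] at e1
    cases b <;> cases b' <;> simp at e1 ⊢
  refine ⟨rfl, hbb, e.2, ?_⟩
  rcases qj_inj e.1 with h1 | ⟨h1, h2⟩ | ⟨h1, h2⟩
  · exact h1
  · omega
  · omega

/-- equality of the first levels -/
def Pre (l : ℕ) (c c' : Code n) : Prop := (∀ i ≤ l, c.1 i = c'.1 i) ∧ (∀ i < l, c.2 i = c'.2 i)

theorem pre_of_th (c c' : Code n) (l : ℕ) (h : th c l = th c' l) : Pre l c c' := by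
  induction l with
  | zero =>
    refine ⟨fun i hi => ?_, fun i hi => absurd hi (Nat.not_lt_zero _)⟩
    have : i = 0 := by omega
    subst this
    cases h1 : c.1 0 <;> cases h2 : c'.1 0 <;> simp [th, h1, h2] at h ⊢
  | succ l ih =>
    rw [th_succ, th_succ] at h
    have := nextTh_inj _ _ _ _ (n l) _ _ _ _ _ _ (qf c l) (qf c' l) (th_bd c l) (th_bd c' l) h
    obtain ⟨i1, i2⟩ := ih this.2.2.1
    refine ⟨fun i hi => ?_, fun i hi => ?_⟩
    · rcases Nat.lt_or_ge i (l + 1) with h1 | h1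
      · exact i1 i (by omega)
      · have : i = l + 1 := by omega
        subst this; tauto
    · rcases Nat.lt_or_ge i l with h1 | h1
      · exact i2 i h1
      · have : i = l := by omega
        subst this; exact Fin.ext (by tauto)

theorem th_of_pre (c c' : Code n) (l : ℕ) (h : Pre l c c') : th c l = th c' l := by
  induction l with
  | zero => simp [th, h.1 0 le_rfl]
  | succ l ih =>
    rw [th_succ, th_succ, ih ⟨fun i hi => h.1 i (by omega), fun i hi => h.2 i (by omega)⟩,
      h.1 l (by omega), h.1 (l + 1) le_rfl, h.2 l (by omega)]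

theorem P_of_pre (c c' : Code n) (l : ℕ) (h : Pre (l + 1) c c') : P c l = P c' l := by
  unfold P
  rw [th_of_pre c c' l ⟨fun i hi => h.1 i (by omega), fun i hi => h.2 i (by omega)⟩,
    h.2 l (by omega)]

end Pool.Agent.H.MP_82e23a_gt
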