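import Mathlib

set_option autoImplicit false

/-! Symbolic part: the code space of the continuum `K`, the two involutions `u` (upper arcs) and
`v` (lower arcs), positions `th` in the level cycles, and the lifted positions `P`. -/

namespace Pool.Agent.H.MP_82e23a_gt

variable {n : ℕ → ℕ}

/-- The code space: a sequence of bits and a sequence of lane indices.
Lane index `0` = leg `Y`, `1` = leg `Z`, `j ≥ 2` = leg `X`, turn `j - 2`. -/
abbrev Code (n : ℕ → ℕ) : Type := (ℕ → Bool) × ((l : ℕ) → Fin (n l + 3))

/-- activity: all earlier lanes are the outermost ones. -/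
def act (c : Code n) : ℕ → Bool
  | 0 => true
  | (l + 1) => act c l && (c.1 l && decide ((c.2 l : ℕ) = n l + 2))

/-- table for the new bit -/
def tb (m : ℕ) (b : Bool) (j : ℕ) (b' : Bool) : Bool :=
  match b with
  | true => decide (j = m + 2 ∨ j = 0)
  | false => if 3 ≤ j then true else if j = 2 then !b' else if j = 0 then b' else false

/-- table for the new lane index -/
def tj (m : ℕ) (b : Bool) (j : ℕ) (b' : Bool) : ℕ :=
  match b with
  | true => if j = m + 2 then j else if 2 ≤ j then j + 1 else if j = 1 then (if b' then 2 else 0)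
      else 0
  | false => if 3 ≤ j then j - 1 else if j = 2 then (if b' then 0 else 1)
      else if j = 0 then (if b' then 1 else 2) else 1

theorem tj_lt (m : ℕ) (b : Bool) (j : ℕ) (b' : Bool) (hj : j < m + 3) : tj m b j b' < m + 3 := by
  cases b <;> cases b' <;> simp only [tj] <;> split_ifs <;> (try simp at *) <;> omega

/-- lower involution: flip all bits -/
def v (c : Code n) : Code n := (fun l => !(c.1 l), c.2)

/-- upper involution -/
def u (c : Code n) : Code n :=
  (fun l => if act c l then tb (n l) (c.1 l) (c.2 l) (c.1 (l + 1)) else !(c.1 l),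
   fun l => if act c l then ⟨tj (n l) (c.1 l) (c.2 l) (c.1 (l + 1)), tj_lt _ _ _ _ (c.2 l).2⟩
      else c.2 l)

theorem v_v (c : Code n) : v (v c) = c := by
  ext l <;> simp [v]

theorem u_bit (c : Code n) (l : ℕ) : (u c).1 l =
    if act c l then tb (n l) (c.1 l) (c.2 l) (c.1 (l + 1)) else !(c.1 l) := rfl

theorem u_lane (c : Code n) (l : ℕ) : ((u c).2 l : ℕ) =
    if act c l then tj (n l) (c.1 l) (c.2 l) (c.1 (l + 1)) else (c.2 l : ℕ) := by
  simp only [u]; split_ifs <;> rfl

theorem tab_top (m : ℕ) (b : Bool) (j : ℕ) (b' : Bool) (hj : j < m + 3) :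
    (tb m b j b' = true ∧ tj m b j b' = m + 2) ↔ (b = true ∧ j = m + 2) := by
  cases b <;> cases b' <;> simp only [tj, tb] <;> split_ifs <;> (try simp) <;> omega

theorem act_u (c : Code n) (l : ℕ) : act (u c) l = act c l := by
  induction l with
  | zero => rfl
  | succ l ih =>
    simp only [act, ih]
    cases h : act c l with
    | false => simp
    | true =>
      simp only [Bool.true_and]
      rw [Bool.eq_iff_iff]
      simp only [Bool.and_eq_true, decide_eq_true_eq, u_bit, u_lane, h, if_true]
      exact tab_top _ _ _ _ (c.2 l).2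

theorem act_succ (c : Code n) (l : ℕ) : act c (l + 1) = true ↔
    act c l = true ∧ c.1 l = true ∧ (c.2 l : ℕ) = n l + 2 := by
  simp [act, and_assoc]

theorem act_le (c : Code n) {l m : ℕ} (h : l ≤ m) (hm : act c m = true) : act c l = true := by
  induction m with
  | zero => simpa using (Nat.le_zero.1 h ▸ hm)
  | succ m ih =>
    rcases Nat.lt_or_ge l (m + 1) with h1 | h1
    · exact ih (Nat.lt_succ_iff.1 h1) ((act_succ c m).1 hm).1
    · have : l = m + 1 := le_antisymm h h1
      rw [this]; exact hm

theorem tab_inv (m : ℕ) (b : Bool) (j : ℕ) (b' : Bool) (hj : j < m + 3)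
    (h : ¬ (b = true ∧ j = m + 2)) :
    tb m (tb m b j b') (tj m b j b') (!b') = b ∧ tj m (tb m b j b') (tj m b j b') (!b') = j := by
  cases b <;> cases b'
  · -- false false
    by_cases h3 : 3 ≤ j
    · have e1 : tb m false j false = true := by simp [tb, h3]
      have e2 : tj m false j false = j - 1 := by simp [tj, h3]
      rw [e1, e2]; simp only [tb, tj]; constructor
      · simp; omega
      · rw [if_neg (by omega), if_pos (by omega)]; omega
    · have : j = 0 ∨ j = 1 ∨ j = 2 := by omega
      rcases this with rfl | rfl | rfl <;> simp [tb, tj]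
  · by_cases h3 : 3 ≤ j
    · have e1 : tb m false j true = true := by simp [tb, h3]
      have e2 : tj m false j true = j - 1 := by simp [tj, h3]
      rw [e1, e2]; simp only [tb, tj]; constructor
      · simp; omega
      · rw [if_neg (by omega), if_pos (by omega)]; omega
    · have : j = 0 ∨ j = 1 ∨ j = 2 := by omega
      rcases this with rfl | rfl | rfl <;> simp [tb, tj]
  · have hj' : j ≠ m + 2 := fun e => h ⟨rfl, e⟩
    by_cases h2 : 2 ≤ j
    · have e1 : tb m true j false = false := by simp [tb]; omega
      have e2 : tj m true j false = j + 1 := by simp [tj, hj', h2]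
      rw [e1, e2]; simp only [tb, tj]
      rw [if_pos (by omega), if_pos (by omega)]; exact ⟨rfl, by omega⟩
    · have : j = 0 ∨ j = 1 := by omega
      rcases this with rfl | rfl <;> simp [tb, tj]
  · have hj' : j ≠ m + 2 := fun e => h ⟨rfl, e⟩
    by_cases h2 : 2 ≤ j
    · have e1 : tb m true j true = false := by simp [tb]; omega
      have e2 : tj m true j true = j + 1 := by simp [tj, hj', h2]
      rw [e1, e2]; simp only [tb, tj]
      rw [if_pos (by omega), if_pos (by omega)]; exact ⟨rfl, by omega⟩
    · have : j = 0 ∨ j = 1 := by omega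
      rcases this with rfl | rfl <;> simp [tb, tj]

theorem u_u (c : Code n) : u (u c) = c := by
  have key : ∀ l, (u (u c)).1 l = c.1 l ∧ ((u (u c)).2 l : ℕ) = (c.2 l : ℕ) := by
    intro l
    rw [u_bit (u c) l, u_lane (u c) l, act_u]
    cases h : act c l with
    | false => simp [u_bit, u_lane, h]
    | true =>
      simp only [if_true]
      by_cases h' : c.1 l = true ∧ (c.2 l : ℕ) = n l + 2
      · have e1 : (u c).1 l = true := by
          rw [u_bit, h, if_pos rfl]; exact ((tab_top _ _ _ _ (c.2 l).2).2 h').1
        have e2 : ((u c).2 l : ℕ) = n l + 2 := by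
          rw [u_lane, h, if_pos rfl]; exact ((tab_top _ _ _ _ (c.2 l).2).2 h').2
        rw [e1, e2, h'.1, h'.2]
        simp [tb, tj]
      · have ha : act c (l + 1) = false := by
          cases hh : act c (l + 1) with
          | false => rfl
          | true => exact absurd ((act_succ c l).1 hh).2 h'
        have e3 : (u c).1 (l + 1) = !(c.1 (l + 1)) := by rw [u_bit, ha]; simp
        rw [e3, u_bit, u_lane, h, if_pos rfl, if_pos rfl]
        exact tab_inv _ _ _ _ (c.2 l).2 h'
  ext l
  · exact (key l).1
  · exact (key l).2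

/-- cycle lengths -/
def Ln (n : ℕ → ℕ) : ℕ → ℤ
  | 0 => 2
  | (l + 1) => 2 * ((n l : ℤ) + 3) * Ln n l

theorem Ln_pos (n : ℕ → ℕ) (l : ℕ) : 2 ≤ Ln n l := by
  induction l with
  | zero => simp [Ln]
  | succ l ih =>
    simp only [Ln]
    have : (0 : ℤ) ≤ n l := Int.natCast_nonneg _
    nlinarith

theorem Ln_even (n : ℕ → ℕ) (l : ℕ) : Ln n l % 2 = 0 := by
  cases l with
  | zero => simp [Ln]
  | succ l => simp only [Ln]; rw [mul_assoc]; exact Int.mul_emod_right _ _

/-- turn number of a lane index -/
def qj (j : ℕ) : ℤ := if j = 0 then 0 else (j : ℤ) - 2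

/-- the lifted position at level `l + 1`, from the position at level `l` -/
def Pp (L th : ℤ) (j : ℕ) : ℤ := th + qj j * L

/-- the position at level `l + 1` -/
def nextTh (L A th : ℤ) (j : ℕ) (b b' : Bool) : ℤ :=
  if b' = b then (if j = 0 then Pp L th j + A else Pp L th j + A + 4 * L)
  else (if 2 ≤ j then A - 1 - Pp L th j else A + 2 * L - 1 - Pp L th j)

/-- positions in the level cycles -/
def th (c : Code n) : ℕ → ℤ
  | 0 => if c.1 0 then 1 else 0
  | (l + 1) => nextTh (Ln n l) (((n l : ℤ) + 1) * Ln n l) (th c l) (c.2 l) (c.1 l) (c.1 (l + 1))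

/-- lifted position at level `l + 1` -/
def P (c : Code n) (l : ℕ) : ℤ := Pp (Ln n l) (th c l) (c.2 l)

end Pool.Agent.H.MP_82e23a_gt
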